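import Pool.Agent.Q121.JQ.LCL

/-! # Project JQ of helper44: the elements of the Selmer group of the twist (JOB JQ-DEC) -/

set_option autoImplicit false

namespace Pool.Agent.Q121.JQ

open Finset Module
open Q44.JQ
open Pool.Agent.TH344.JG (LocJ SelJ PR df)
open Pool.Agent.Y723.PT (tw dc LG even_dvd locJ_iff df_tw)
open Pool.Agent.Y723.JG (goodj)

/-- the vector attached to a set of indices of even order -/
noncomputable def vs {n : ℕ} (P : Fin n → Prop) [DecidablePred P] (h : Even (univ.filter P).card) : VV n :=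
  ⟨fun i => if P i then 1 else 0, by
    rw [mem_VV, sum_boole]
    exact (ZMod.natCast_eq_zero_iff_even).2 h⟩

lemma neg_even {n : ℕ} {d : Fin n → ℤ} (hd : ∀ i, d i ≠ 0) (h : IsSquare (∏ i, ((d i : ℤ) : ℝ))) :
    Even (univ.filter fun i => d i < 0).card := by
  have hpos : 0 < ∏ i, ((d i : ℤ) : ℝ) := by
    obtain ⟨r, hr⟩ := h
    have h1 : ∏ i, ((d i : ℤ) : ℝ) ≠ 0 := prod_ne_zero_iff.2 fun i _ => Int.cast_ne_zero.2 (hd i)
    rcases lt_or_eq_of_le (mul_self_nonneg r) with h2 | h2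
    · rw [hr]
      exact h2
    · exact absurd (by rw [hr, ← h2]) h1
  have hpos' : 0 < ∏ i, d i := by
    have : ((∏ i, d i : ℤ) : ℝ) = ∏ i, ((d i : ℤ) : ℝ) := by push_cast; rfl
    rw [← this] at hpos
    exact_mod_cast hpos
  have key : ∏ i, d i = (-1) ^ (univ.filter fun i => d i < 0).card * ∏ i, |d i| := by
    rw [← prod_const, prod_filter, ← prod_mul_distrib]
    refine prod_congr rfl fun i _ => ?_
    split_ifs with h
    · rw [abs_of_neg h]
      ring
    · rw [abs_of_nonneg (not_lt.1 h), one_mul]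
  by_contra hodd
  rw [Nat.not_even_iff_odd] at hodd
  rw [key, hodd.neg_one_pow] at hpos'
  have h3 : 0 ≤ ∏ i, |d i| := prod_nonneg fun i _ => abs_nonneg _
  linarith

/-- JOB JQ-DEC -/
theorem t_DEC : S_DEC := by
  intro T hT h2 c S hS d hd
  have hd0 : ∀ i, d i ≠ 0 := fun i => (hd.1 i).ne_zero
  have hn0 : (∏ q ∈ S, q : ℕ) ≠ 0 := prod_ne_zero_iff.2 fun q hq => (hS q hq).1.ne_zero
  -- parities
  have hneg : Even (univ.filter fun i => d i < 0).card := neg_even hd0 (LG.prod_sq (locJ_iff.1 hd.2.1))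
  have hev : ∀ p : ℕ, p.Prime → Even (univ.filter fun i => (p : ℤ) ∣ d i).card := fun p hp => even_dvd hd hp
  -- the support
  have hsupp : ∀ p : ℕ, p.Prime → ∀ i, (p : ℤ) ∣ d i → p ∈ T ∪ S := by
    intro p hp i hpi
    by_contra hcon
    rw [mem_union, not_or] at hcon
    haveI : Fact p.Prime := ⟨hp⟩
    have hp2 : p ≠ 2 := by
      rintro rfl
      exact hcon.1 h2
    have hpos := hp.two_le
    refine goodj (2 * c.g + 1) p (tw ((∏ q ∈ S, q : ℕ) : ℤ) c.a) d ⟨c.g, rfl⟩ (by omega) (fun k hk => ?_) hd.1 (hd.2.2 p) i hpi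
    rw [df_tw] at hk
    rcases (Nat.prime_iff_prime_int.1 hp).dvd_or_dvd hk with h | h
    · rw [Int.natCast_dvd_natCast] at h
      obtain ⟨q, hq, hpq⟩ := (hp.prime.dvd_finsetProd_iff _).1 h
      rw [Nat.prime_dvd_prime_iff_eq hp (hS q hq).1] at hpq
      exact hcon.2 (hpq ▸ hq)
    · exact hcon.1 (c.supp _ _ (ne_of_lt k.2) p hp h)
  have hdisj : Disjoint T S := by
    rw [disjoint_left]
    intro p h1 h2
    exact (hS p h2).2 h1
  refine ⟨(fun o => match o with
      | none => vs (fun i => d i < 0) hneg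
      | some t => vs (fun i => ((t : ℕ) : ℤ) ∣ d i) (hev t (hT t t.2)),
    fun p => vs (fun i => ((p : ℕ) : ℤ) ∣ d i) (hev p (hS p p.2).1)), ?_⟩
  funext i
  have hsq : Squarefree (d i).natAbs := Int.squarefree_natAbs.2 (hd.1 i)
  have h3 : (d i).natAbs = (∏ t : T, if ((t : ℕ) : ℤ) ∣ d i then (t : ℕ) else 1) *
      ∏ p : S, if ((p : ℕ) : ℤ) ∣ d i then (p : ℕ) else 1 := by
    have e1 : (∏ t : T, if ((t : ℕ) : ℤ) ∣ d i then (t : ℕ) else 1) =
        ∏ t ∈ T, if ((t : ℕ) : ℤ) ∣ d i then (t : ℕ) else 1 :=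
      Finset.prod_coe_sort T fun t => if ((t : ℕ) : ℤ) ∣ d i then (t : ℕ) else 1
    have e2 : (∏ t : S, if ((t : ℕ) : ℤ) ∣ d i then (t : ℕ) else 1) =
        ∏ t ∈ S, if ((t : ℕ) : ℤ) ∣ d i then (t : ℕ) else 1 :=
      Finset.prod_coe_sort S fun t => if ((t : ℕ) : ℤ) ∣ d i then (t : ℕ) else 1
    rw [e1, e2, ← prod_union hdisj, ← prod_filter]
    conv_lhs => rw [← Nat.prod_primeFactors_of_squarefree hsq]
    refine prod_congr ?_ fun _ _ => rfl
    ext p
    rw [Nat.mem_primeFactors, mem_filter]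
    constructor
    · rintro ⟨hp, hpd, -⟩
      have := Int.natCast_dvd.2 hpd
      exact ⟨hsupp p hp i this, this⟩
    · rintro ⟨hp, hpd⟩
      have hpp : p.Prime := (mem_union.1 hp).elim (hT p) fun h => (hS p h).1
      exact ⟨hpp, Int.natCast_dvd.1 hpd, Int.natAbs_ne_zero.2 (hd0 i)⟩
  have h4 : d i = (if d i < 0 then -1 else 1) * ((d i).natAbs : ℤ) := by
    split_ifs with h
    · rw [Int.ofNat_natAbs_of_nonpos h.le]
      ring
    · rw [Int.natAbs_of_nonneg (not_lt.1 h), one_mul]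
  conv_lhs => rw [h4, h3]
  unfold Cr.dz Uo Cr.zx
  rw [Fintype.prod_option]
  push_cast
  rw [← mul_assoc]
  have key : ∀ (P : Prop) [Decidable P] (a : ℤ), (if (if P then (1 : ZMod 2) else 0) = 0 then 1 else a) =
      if P then a else 1 := by
    intro P _ a
    by_cases h : P
    · rw [if_pos h, if_pos h, if_neg one_ne_zero]
    · rw [if_neg h, if_neg h, if_pos rfl]
  congr 1
  · congr 1
    · exact (key _ _).symm
    · refine prod_congr rfl fun t _ => ?_
      exact (key _ _).symm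
  · refine prod_congr rfl fun t _ => ?_
    exact (key _ _).symm

/-- JOB JQ-SELX -/
theorem t_SELX (hROW : S_ROW) (hLBL : S_LBL) : S_SELX := by
  intro T hT h2 c ρ 𝓛 hL S hS hρ
  obtain ⟨l1, -⟩ := hLBL T hT h2
  have hcop1 : Cop T 1 := fun p hp h => (hT p hp).one_lt.ne' (Nat.dvd_one.1 h)
  have hlbl1 : lbl T 1 = 0 := by
    have h := l1 1 1 hcop1 hcop1
    rw [one_mul] at h
    exact left_eq_add.1 h
  have hcopm : ∀ n n' : ℕ, Cop T n → Cop T n' → Cop T (n * n') := fun n n' h h' p hp hd =>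
    ((hT p hp).dvd_mul.1 hd).elim (h p hp) (h' p hp)
  have hprod : ∀ (ι : Type) (A : Finset ι) (f : ι → ℕ), (∀ a ∈ A, Cop T (f a)) →
      Cop T (∏ a ∈ A, f a) ∧ lbl T (∏ a ∈ A, f a) = ∑ a ∈ A, lbl T (f a) := by
    classical
    intro ι A f
    induction A using Finset.induction_on with
    | empty =>
      intro _
      rw [prod_empty, sum_empty]
      exact ⟨hcop1, hlbl1⟩
    | insert a A ha ih =>
      intro hf
      obtain ⟨i1, i2⟩ := ih fun b hb => hf b (mem_insert_of_mem hb)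
      rw [prod_insert ha, sum_insert ha]
      exact ⟨hcopm _ _ (hf a (mem_insert_self _ _)) i1, by rw [l1 _ _ (hf a (mem_insert_self _ _)) i1, i2]⟩
  have hcopS : ∀ p ∈ S, Cop T p := fun p hp t ht hd => by
    rw [Nat.prime_dvd_prime_iff_eq (hT t ht) (hS p hp).1] at hd
    exact (hS p hp).2 (hd ▸ ht)
  obtain ⟨m1, m2⟩ := hprod ℕ S (fun p => p) hcopS
  have hsub : SelJ (tw ((∏ q ∈ S, q : ℕ) : ℤ) c.a) ⊆
      (fun e : (Option T → c.V) × (S → c.V) => c.dz e.1 (c.zx e.2)) ''
        ((Sel (c.dj 𝓛) (fun p q : S => Pool.Agent.Y703.CQ.nr p q) (fun p : S => lbl T p) :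
          Submodule (ZMod 2) ((Option T → c.V) × (S → c.V))) : Set ((Option T → c.V) × (S → c.V))) := by
    intro d hd
    obtain ⟨e, rfl⟩ := t_DEC T hT h2 c S hS d hd
    refine ⟨e, ⟨?_, ?_⟩, rfl⟩
    · show clL (fun p : S => lbl T p) e ∈ 𝓛
      have hz : ∀ i, Cop T (c.zx e.2 i) ∧ lbl T (c.zx e.2 i) =
          fun o => ((clL (fun p : S => lbl T p) e).2 o).1 i := by
        intro i
        have hf : ∀ p ∈ (univ : Finset S), Cop T (if (e.2 p).1 i = 0 then 1 else (p : ℕ)) := by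
          intro p _
          split_ifs
          · exact hcop1
          · exact hcopS p p.2
        obtain ⟨i1, i2⟩ := hprod S univ (fun p => if (e.2 p).1 i = 0 then 1 else (p : ℕ)) hf
        refine ⟨i1, ?_⟩
        unfold Cr.zx
        rw [i2]
        funext o
        rw [Finset.sum_apply]
        have e1 : ((clL (fun p : S => lbl T p) e).2 o).1 i = ∑ p : S, lbl T p o * (e.2 p).1 i := by
          show (((∑ p : S, lbl T p o • e.2 p : c.V)) : Fin (2 * c.g + 1) → ZMod 2) i = _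
          rw [Submodule.coe_sum, Finset.sum_apply]
          rfl
        rw [e1]
        refine sum_congr rfl fun p _ => ?_
        rcases z2 ((e.2 p).1 i) with h | h <;> rw [h]
        · rw [if_pos rfl, hlbl1, mul_zero]
          rfl
        · rw [if_neg one_ne_zero, mul_one]
      refine hL _ ⟨_, c.zx e.2, m1, m2.trans hρ, hz, hd.2.1⟩ fun p hp => ?_
      intro hfp
      exact ⟨_, c.zx e.2, m1, m2.trans hρ, hz, hd.2.2 p⟩
    · show e ∈ LinearMap.ker (rowL (c.dj 𝓛) (fun p q : S => Pool.Agent.Y703.CQ.nr p q) (fun p : S => lbl T p))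
      rw [LinearMap.mem_ker]
      funext p
      refine hROW T hT h2 c 𝓛 S hS e p ?_
      intro hfp
      exact hd.2.2 p
  have hfin : ((Sel (c.dj 𝓛) (fun p q : S => Pool.Agent.Y703.CQ.nr p q) (fun p : S => lbl T p) :
          Submodule (ZMod 2) ((Option T → c.V) × (S → c.V))) : Set ((Option T → c.V) × (S → c.V))).Finite := by
    haveI : Finite c.V := Subtype.finite
    exact Set.toFinite _
  refine ⟨(hfin.image _).subset hsub, ?_⟩
  refine (Set.ncard_le_ncard hsub (hfin.image _)).trans ((Set.ncard_image_le hfin).trans ?_)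
  rw [← Nat.card_coe_set_eq]
  exact le_rfl

end Pool.Agent.Q121.JQ
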