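import Pool.Agent.Q44.JQ.StmC
import Pool.Agent.Y723.PT.Tor

/-! # Project JQ of helper44: the local conditions are linear and contain the torsion (JOB JQ-LCL) -/

set_option autoImplicit false

namespace Pool.Agent.Q121.JQ

open Finset Module Polynomial
open Q44.JQ
open Pool.Agent.TH344.JG (LocJ SelJ PR df)
open Pool.Agent.Y723.PT (tw dc LG tw_inj inj_cast locJ_iff um vm um_mul um_monic um_nd um_eval dlt dlt_ne isSquare_cancel)
open Q44.BN (jv)
open Q44.TI (ch)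

lemma tv_ne {T : Finset ℕ} (hT : ∀ p ∈ T, p.Prime) (o : Option T) : tv o ≠ 0 := by
  cases o with
  | none =>
    show (-1 : ℤ) ≠ 0
    norm_num
  | some t =>
    show ((t : ℕ) : ℤ) ≠ 0
    exact_mod_cast (hT t t.2).ne_zero

lemma Uo_ne {T : Finset ℕ} (hT : ∀ p ∈ T, p.Prime) (γ : Option T → ZMod 2) : Uo γ ≠ 0 := by
  unfold Uo
  rw [prod_ne_zero_iff]
  intro o _
  split_ifs
  · exact one_ne_zero
  · exact tv_ne hT o

lemma Uo_sq {T : Finset ℕ} (γ γ' : Option T → ZMod 2) : IsSquare (Uo γ * Uo γ' * Uo (γ + γ')) := by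
  unfold Uo
  rw [← prod_mul_distrib, ← prod_mul_distrib]
  refine Finset.isSquare_prod _ fun o _ => ?_
  rw [Pi.add_apply]
  have key : ∀ a b : ZMod 2, (a = 0 ∧ b = 0 ∧ a + b = 0) ∨ (a = 0 ∧ b ≠ 0 ∧ a + b ≠ 0) ∨
      (a ≠ 0 ∧ b = 0 ∧ a + b ≠ 0) ∨ (a ≠ 0 ∧ b ≠ 0 ∧ a + b = 0) := by decide
  rcases key (γ o) (γ' o) with ⟨h1, h2, h3⟩ | ⟨h1, h2, h3⟩ | ⟨h1, h2, h3⟩ | ⟨h1, h2, h3⟩
  · rw [if_pos h1, if_pos h2, if_pos h3]
    exact ⟨1, by norm_num⟩
  · rw [if_pos h1, if_neg h2, if_neg h3]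
    exact ⟨tv o, by ring⟩
  · rw [if_neg h1, if_pos h2, if_neg h3]
    exact ⟨tv o, by ring⟩
  · rw [if_neg h1, if_neg h2, if_pos h3]
    exact ⟨tv o, by ring⟩

lemma dz_ne {T : Finset ℕ} (hT : ∀ p ∈ T, p.Prime) (c : Cr T) (δ : Option T → c.V)
    (z : Fin (2 * c.g + 1) → ℕ) (hz : ∀ i, z i ≠ 0) (i : Fin (2 * c.g + 1)) : c.dz δ z i ≠ 0 := by
  unfold Cr.dz
  exact mul_ne_zero (Uo_ne hT _) (by exact_mod_cast hz i)

lemma locJ_mul {T : Finset ℕ} (hT : ∀ p ∈ T, p.Prime) (c : Cr T) (K : Type) [Field K] [CharZero K]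
    {n : ℕ} (hn : n ≠ 0) (δ δ' : Option T → c.V) (z z' : Fin (2 * c.g + 1) → ℕ)
    (hz : ∀ i, z i ≠ 0) (hz' : ∀ i, z' i ≠ 0)
    (h : LocJ K (tw n c.a) (c.dz δ z)) (h' : LocJ K (tw n c.a) (c.dz δ' z')) :
    LocJ K (tw n c.a) (c.dz (δ + δ') fun i => z i * z' i) := by
  rw [locJ_iff] at h h' ⊢
  have h3 := LG.mul ⟨c.g, rfl⟩ (inj_cast (tw_inj (by exact_mod_cast hn) c.inj)) h h'
  refine h3.congr (fun i => ?_) fun i => ?_
  · exact mul_ne_zero (Int.cast_ne_zero.2 (dz_ne hT c δ z hz i)) (Int.cast_ne_zero.2 (dz_ne hT c δ' z' hz' i))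
  · have h4 : IsSquare (c.dz δ z i * c.dz δ' z' i * c.dz (δ + δ') (fun i => z i * z' i) i) := by
      have h1 := Uo_sq (fun o => (δ o).1 i) (fun o => (δ' o).1 i)
      have h2 : IsSquare (((z i : ℤ) * z' i) * ((z i : ℤ) * z' i)) := ⟨_, rfl⟩
      have h3 := h1.mul h2
      have e0 : (fun o => ((δ + δ') o).1 i) = ((fun o => (δ o).1 i) + fun o => (δ' o).1 i) := rfl
      have e1 : c.dz δ z i * c.dz δ' z' i * c.dz (δ + δ') (fun i => z i * z' i) i =
          Uo (fun o => (δ o).1 i) * Uo (fun o => (δ' o).1 i) *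
          Uo ((fun o => (δ o).1 i) + fun o => (δ' o).1 i) * (((z i : ℤ) * z' i) * ((z i : ℤ) * z' i)) := by
        unfold Cr.dz
        rw [e0]
        push_cast
        ring
      rw [e1]
      exact h3
    have h5 := h4.map (Int.castRingHom K)
    simpa using h5

section tors

variable {g : ℕ} {b : Fin (2 * g + 1) → ℤ}

lemma LG_dlt (K : Type) [Field K] [CharZero K] (hg : 1 ≤ g) (hb : Function.Injective b)
    (m : Fin (2 * g + 1)) : LG (fun i => ((b i : ℤ) : K)) (fun i => ((dlt b m i : ℤ) : K)) := by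
  refine ⟨um b m K, vm b m K, um_monic m hg, ?_, fun i => ?_⟩
  · exact ⟨X - C ((b m : ℤ) : K), (um_mul m).symm⟩
  · rw [um_eval, um_nd m hg]
    refine ⟨by exact_mod_cast dlt_ne m hb i, ?_⟩
    rw [pow_mul, neg_one_sq, one_pow, one_mul]
    exact ⟨_, rfl⟩

lemma LG_prod (K : Type) [Field K] [CharZero K] (hg : 1 ≤ g) (hb : Function.Injective b)
    (S : Finset (Fin (2 * g + 1))) :
    LG (fun i => ((b i : ℤ) : K)) (fun i => ((∏ m ∈ S, dlt b m i : ℤ) : K)) := by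
  classical
  induction S using Finset.induction_on with
  | empty =>
    have e : (fun i : Fin (2 * g + 1) => ((∏ m ∈ (∅ : Finset (Fin (2 * g + 1))), dlt b m i : ℤ) : K)) =
        fun _ => 1 := by
      funext i
      rw [prod_empty, Int.cast_one]
    rw [e]
    exact LG.one _
  | insert m S hm ih =>
    have h1 := LG.mul ⟨g, rfl⟩ (inj_cast hb) (LG_dlt K hg hb m) ih
    have e : (fun i : Fin (2 * g + 1) => ((∏ m ∈ insert m S, dlt b m i : ℤ) : K)) =
        fun i => ((dlt b m i : ℤ) : K) * ((∏ m ∈ S, dlt b m i : ℤ) : K) := by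
      funext i
      rw [prod_insert hm, Int.cast_mul]
    rw [e]
    exact h1

end tors

lemma z2 (a : ZMod 2) : a = 0 ∨ a = 1 := by
  revert a
  decide

/-- the even number of the nonzero entries -/
lemma even_supp {n : ℕ} {x : Fin n → ZMod 2} (hx : ∑ i, x i = 0) :
    Even (univ.filter fun i => x i ≠ 0).card := by
  have h1 : ∑ i, x i = ((univ.filter fun i => x i ≠ 0).card : ZMod 2) := by
    rw [card_filter, Nat.cast_sum]
    refine sum_congr rfl fun i _ => ?_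
    rcases z2 (x i) with h | h <;> rw [h]
    · simp
    · simp
  rw [h1] at hx
  exact (ZMod.natCast_eq_zero_iff_even).1 hx

variable {T : Finset ℕ} (c : Cr T)

/-- the integer which represents the class of the torsion -/
noncomputable def Dx (x : Fin (2 * c.g + 1) → ZMod 2) (i : Fin (2 * c.g + 1)) : ℤ :=
  if x i = 0 then ∏ j ∈ univ.filter (fun j => x j ≠ 0), (c.a i - c.a j)
  else - ∏ j ∈ univ.filter (fun j => x j = 0), (c.a i - c.a j)

lemma sub_ne {i j : Fin (2 * c.g + 1)} (h : i ≠ j) : c.a i - c.a j ≠ 0 :=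
  sub_ne_zero.2 fun e => h (c.inj e)

lemma Dx_ne (x : Fin (2 * c.g + 1) → ZMod 2) (i : Fin (2 * c.g + 1)) : Dx c x i ≠ 0 := by
  unfold Dx
  split_ifs with h
  · refine prod_ne_zero_iff.2 fun j hj => sub_ne c ?_
    rintro rfl
    exact (mem_filter.1 hj).2 h
  · refine neg_ne_zero.2 (prod_ne_zero_iff.2 fun j hj => sub_ne c ?_)
    rintro rfl
    exact h (mem_filter.1 hj).2

lemma Dx_supp (x : Fin (2 * c.g + 1) → ZMod 2) (i : Fin (2 * c.g + 1))
    (p : ℕ) (hp : p.Prime) (hd : (p : ℤ) ∣ Dx c x i) : p ∈ T := by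
  have hpi : Prime (p : ℤ) := Nat.prime_iff_prime_int.1 hp
  unfold Dx at hd
  split_ifs at hd with h
  · obtain ⟨j, hj, hd'⟩ := (hpi.dvd_finsetProd_iff _).1 hd
    refine c.supp i j ?_ p hp hd'
    rintro rfl
    exact (mem_filter.1 hj).2 h
  · rw [dvd_neg] at hd
    obtain ⟨j, hj, hd'⟩ := (hpi.dvd_finsetProd_iff _).1 hd
    refine c.supp i j ?_ p hp hd'
    rintro rfl
    exact h (mem_filter.1 hj).2

lemma ct_one : (ct (1 : ℤ) : Option T → ZMod 2) = 0 := by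
  funext o
  cases o with
  | none => simp [ct]
  | some t => simp [ct, padicValInt]

lemma ct_prod (hc : ∀ z z' : ℤ, z ≠ 0 → z' ≠ 0 → (ct (z * z') : Option T → ZMod 2) = ct z + ct z')
    {ι : Type} (S : Finset ι) (f : ι → ℤ) (hf : ∀ j ∈ S, f j ≠ 0) :
    (ct (∏ j ∈ S, f j) : Option T → ZMod 2) = ∑ j ∈ S, ct (f j) := by
  classical
  induction S using Finset.induction_on with
  | empty => rw [prod_empty, sum_empty, ct_one]
  | insert m S hm ih =>
    have hf' : ∀ j ∈ S, f j ≠ 0 := fun j hj => hf j (mem_insert_of_mem hj)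
    rw [prod_insert hm, sum_insert hm, hc _ _ (hf m (mem_insert_self _ _)) (prod_ne_zero_iff.2 hf'), ih hf']

lemma pr_single (o : Option T) (z : ℤ) : pr (Pi.single o 1) z = ct z o := by
  classical
  unfold pr
  rw [Finset.sum_eq_single o]
  · rw [Pi.single_eq_same, one_mul]
  · intro o' _ h
    rw [Pi.single_eq_of_ne h, zero_mul]
  · intro h
    exact absurd (mem_univ o) h

lemma ct_Dx (hc : ∀ z z' : ℤ, z ≠ 0 → z' ≠ 0 → (ct (z * z') : Option T → ZMod 2) = ct z + ct z')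
    (x : c.V) (i : Fin (2 * c.g + 1)) :
    (ct (Dx c x.1 i) : Option T → ZMod 2) = fun o => (c.TT (Pi.single o 1) x).1 i := by
  funext o
  have e0 : (c.TT (Pi.single o 1) x).1 i = ∑ j ∈ univ.erase i, ct (c.a i - c.a j) o * (x.1 i + x.1 j) +
      (Pi.single o 1 : Option T → ZMod 2) none * x.1 i := by
    show c.tf (Pi.single o 1) x.1 i = _
    unfold Cr.tf
    congr 1
    refine sum_congr rfl fun j _ => ?_
    rw [pr_single]
  rw [e0]
  unfold Dx
  by_cases h : x.1 i = 0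
  · rw [if_pos h, ct_prod hc _ _ (fun j hj => sub_ne c (by rintro rfl; exact (mem_filter.1 hj).2 h)), h,
      mul_zero, add_zero, Finset.sum_apply, sum_filter]
    have e1 : ∑ j, (if x.1 j ≠ 0 then ct (c.a i - c.a j) o else 0) =
        ∑ j ∈ univ.erase i, (if x.1 j ≠ 0 then ct (c.a i - c.a j) o else 0) := by
      rw [← Finset.add_sum_erase univ _ (mem_univ i), if_neg (not_not.2 h), zero_add]
    rw [e1]
    refine sum_congr rfl fun j _ => ?_
    rcases z2 (x.1 j) with h' | h' <;> rw [h']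
    · simp
    · simp
  · have h1 : x.1 i = 1 := (z2 _).resolve_left h
    have hne : ∀ j ∈ univ.filter (fun j => x.1 j = 0), c.a i - c.a j ≠ 0 :=
      fun j hj => sub_ne c (by rintro rfl; exact h (mem_filter.1 hj).2)
    rw [if_neg h, ct_neg (prod_ne_zero_iff.2 hne), ct_prod hc _ _ hne, h1, mul_one,
      Finset.sum_apply, sum_filter]
    have e1 : ∑ j, (if x.1 j = 0 then ct (c.a i - c.a j) o else 0) =
        ∑ j ∈ univ.erase i, (if x.1 j = 0 then ct (c.a i - c.a j) o else 0) := by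
      rw [← Finset.add_sum_erase univ _ (mem_univ i), if_neg h, zero_add]
    rw [e1]
    congr 1
    · refine sum_congr rfl fun j _ => ?_
      rcases z2 (x.1 j) with h' | h' <;> rw [h']
      · simp
      · have : (1 + 1 : ZMod 2) = 0 := by decide
        rw [this]
        simp
    · by_cases ho : o = none
      · subst ho
        rw [if_pos rfl, Pi.single_eq_same]
      · rw [if_neg ho, Pi.single_eq_of_ne (Ne.symm ho)]

lemma sq_Dx (x : c.V) (n : ℕ) (i : Fin (2 * c.g + 1)) :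
    IsSquare ((∏ m ∈ univ.filter (fun m => x.1 m ≠ 0), dlt (tw n c.a) m i) *
      (Dx c x.1 i * ((if x.1 i = 0 then 1 else n : ℕ) : ℤ))) := by
  obtain ⟨k, hk⟩ := even_supp (mem_VV.1 x.2)
  have hsw : ∀ S : Finset (Fin (2 * c.g + 1)), i ∉ S →
      ∏ m ∈ S, dlt (tw n c.a) m i = (-(n : ℤ)) ^ S.card * ∏ m ∈ S, (c.a i - c.a m) := by
    intro S hi
    rw [← prod_const, ← prod_mul_distrib]
    refine prod_congr rfl fun m hm => ?_
    unfold dlt tw
    rw [if_neg (by rintro rfl; exact hi hm)]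
    ring
  unfold Dx
  by_cases h : x.1 i = 0
  · rw [if_pos h, if_pos h, hsw _ (fun hm : i ∈ univ.filter (fun m => x.1 m ≠ 0) => (mem_filter.1 hm).2 h), hk]
    refine ⟨(-(n : ℤ)) ^ k * ∏ m ∈ univ.filter (fun m => x.1 m ≠ 0), (c.a i - c.a m), ?_⟩
    rw [pow_add]
    push_cast
    ring
  · rw [if_neg h, if_neg h]
    have hi : i ∈ univ.filter (fun m => x.1 m ≠ 0) := mem_filter.2 ⟨mem_univ _, h⟩
    have hcard : ((univ.filter (fun m => x.1 m ≠ 0)).erase i).card + 1 = k + k := by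
      rw [card_erase_add_one hi, hk]
    rw [← mul_prod_erase _ _ hi, hsw _ (notMem_erase i _)]
    have e1 : dlt (tw n c.a) i i = (n : ℤ) ^ (2 * c.g) * ∏ j ∈ univ.erase i, (c.a i - c.a j) := by
      unfold dlt tw
      rw [if_pos rfl]
      have e2 : (univ.erase i).card = 2 * c.g := by
        rw [card_erase_of_mem (mem_univ _), card_univ, Fintype.card_fin, Nat.add_sub_cancel]
      have e6 : (n : ℤ) ^ (2 * c.g) = ∏ j ∈ univ.erase i, (n : ℤ) := by
        rw [prod_const, e2]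
      rw [e6, ← prod_mul_distrib]
      exact prod_congr rfl fun j _ => by ring
    have e3 : ∏ j ∈ univ.erase i, (c.a i - c.a j) =
        (∏ j ∈ (univ.filter (fun m => x.1 m ≠ 0)).erase i, (c.a i - c.a j)) *
        ∏ j ∈ univ.filter (fun j => x.1 j = 0), (c.a i - c.a j) := by
      rw [← prod_union]
      · congr 1
        ext j
        simp only [mem_erase, mem_univ, and_true, mem_union, mem_filter, true_and]
        constructor
        · intro hj
          by_cases h0 : x.1 j = 0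
          · exact Or.inr h0
          · exact Or.inl ⟨hj, h0⟩
        · rintro (hj | hj)
          · exact hj.1
          · rintro rfl
            exact h hj
      · rw [disjoint_left]
        intro j h1 h2
        exact (mem_filter.1 (mem_of_mem_erase h1)).2 (mem_filter.1 h2).2
    rw [e1, e3]
    obtain ⟨Q, hQ⟩ : ∃ Q, Q = ∏ j ∈ (univ.filter (fun m => x.1 m ≠ 0)).erase i, (c.a i - c.a j) := ⟨_, rfl⟩
    obtain ⟨R, hR⟩ : ∃ R, R = ∏ j ∈ univ.filter (fun j => x.1 j = 0), (c.a i - c.a j) := ⟨_, rfl⟩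
    rw [← hQ, ← hR]
    obtain ⟨l, hl⟩ : ∃ l, l = ((univ.filter (fun m => x.1 m ≠ 0)).erase i).card := ⟨_, rfl⟩
    rw [← hl] at hcard ⊢
    refine ⟨(n : ℤ) ^ c.g * Q * R * (-(n : ℤ)) ^ k, ?_⟩
    have e4 : (-(n : ℤ)) ^ l * (-(n : ℤ)) = (-(n : ℤ)) ^ k * (-(n : ℤ)) ^ k := by
      rw [← pow_succ, hcard, pow_add]
    have e5 : (n : ℤ) ^ (2 * c.g) = (n : ℤ) ^ c.g * (n : ℤ) ^ c.g := by
      rw [two_mul, pow_add]
    rw [e5]
    linear_combination ((n : ℤ) ^ c.g * (n : ℤ) ^ c.g * Q * R * Q * R) * e4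

/-- the torsion satisfies the local conditions -/
lemma tor_loc
    (hc : ∀ z z' : ℤ, z ≠ 0 → z' ≠ 0 → (ct (z * z') : Option T → ZMod 2) = ct z + ct z')
    (hU : ∀ z : ℤ, z ≠ 0 → (∀ p : ℕ, p.Prime → (p : ℤ) ∣ z → p ∈ T) → ∃ w : ℤ, w ≠ 0 ∧
      z * Uo (ct z : Option T → ZMod 2) = w ^ 2)
    (K : Type) [Field K] [CharZero K] (n : ℕ) (hn : n ≠ 0) (x : c.V) :
    LocJ K (tw n c.a) (c.dz (fun o => c.TT (Pi.single o 1) x) fun i => if x.1 i = 0 then 1 else n) := by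
  have hn' : (n : ℤ) ≠ 0 := by exact_mod_cast hn
  rw [locJ_iff]
  have h1 := LG_prod K c.hg (tw_inj hn' c.inj) (univ.filter (fun m => x.1 m ≠ 0))
  have hne : ∀ i, ∏ m ∈ univ.filter (fun m => x.1 m ≠ 0), dlt (tw n c.a) m i ≠ 0 :=
    fun i => prod_ne_zero_iff.2 fun m _ => dlt_ne m (tw_inj hn' c.inj) i
  refine h1.congr (fun i => Int.cast_ne_zero.2 (hne i)) fun i => ?_
  obtain ⟨w, hw, hw2⟩ := hU (Dx c x.1 i) (Dx_ne c x.1 i) (Dx_supp c x.1 i)
  have h2 := (sq_Dx c x n i).mul (⟨w, by rw [hw2, pow_two]⟩ : IsSquare (Dx c x.1 i * Uo (ct (Dx c x.1 i) : Option T → ZMod 2)))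
  rw [ct_Dx c hc] at h2
  have h3 := h2.map (Int.castRingHom K)
  have e1 : (∏ m ∈ univ.filter (fun m => x.1 m ≠ 0), dlt (tw n c.a) m i) *
      (Dx c x.1 i * ((if x.1 i = 0 then 1 else n : ℕ) : ℤ)) *
      (Dx c x.1 i * Uo fun o => (c.TT (Pi.single o 1) x).1 i) =
      (Dx c x.1 i * Dx c x.1 i) * ((∏ m ∈ univ.filter (fun m => x.1 m ≠ 0), dlt (tw n c.a) m i) *
        c.dz (fun o => c.TT (Pi.single o 1) x) (fun i => if x.1 i = 0 then 1 else n) i) := by
    unfold Cr.dz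
    ring
  rw [e1, map_mul] at h3
  have h4 := isSquare_cancel (x := (Int.castRingHom K) (Dx c x.1 i * Dx c x.1 i)) (by
    rw [eq_intCast, Int.cast_ne_zero]
    exact mul_ne_zero (Dx_ne c x.1 i) (Dx_ne c x.1 i)) ⟨(Dx c x.1 i : K), by simp⟩ h3
  simpa using h4

lemma cop_ne (h2 : 2 ∈ T) {n : ℕ} (h : Cop T n) : n ≠ 0 := by
  rintro rfl
  exact h 2 h2 (dvd_zero _)

/-- JOB JQ-LCL -/
theorem t_LCL (hLBL : S_LBL) (hLOCI : S_LOCI) : S_LCL := by
  intro T hT h2 c ρ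
  obtain ⟨l1, -, -, l4, -, -, l7, l8⟩ := hLBL T hT h2
  have hcop1 : Cop T 1 := fun p hp h => (hT p hp).one_lt.ne' (Nat.dvd_one.1 h)
  have hlbl1 : lbl T 1 = 0 := by
    have h := l1 1 1 hcop1 hcop1
    rw [one_mul] at h
    exact left_eq_add.1 h
  have hcopm : ∀ n n' : ℕ, Cop T n → Cop T n' → Cop T (n * n') := fun n n' h h' p hp hd =>
    ((hT p hp).dvd_mul.1 hd).elim (h p hp) (h' p hp)
  obtain ⟨q, hq, -, hqT, hqρ⟩ := l4 ρ 0
  have hqc : Cop T q := fun t ht hd => by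
    rw [Nat.prime_dvd_prime_iff_eq (hT t ht) hq] at hd
    exact hqT (hd ▸ ht)
  have add : ∀ (K : Type) [Field K] [CharZero K],
      (∀ (y : (Option T → c.V) × (Option T → c.V)) (n : ℕ) (z : Fin (2 * c.g + 1) → ℕ), Cop T n → lbl T n = ρ →
        (∀ i, Cop T (z i) ∧ lbl T (z i) = fun o => (y.2 o).1 i) → c.Lc K ρ y → LocJ K (tw n c.a) (c.dz y.1 z)) →
      ∀ y y', c.Lc K ρ y → c.Lc K ρ y' → c.Lc K ρ (y + y') := by
    rintro K _ _ hK y y' ⟨n, z, hn, hnρ, hz, hloc⟩ ⟨n', z', hn', hnρ', hz', hloc'⟩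
    have h' := hK y' n z' hn hnρ hz' ⟨n', z', hn', hnρ', hz', hloc'⟩
    refine ⟨n, fun i => z i * z' i, hn, hnρ, fun i => ⟨hcopm _ _ (hz i).1 (hz' i).1, ?_⟩, ?_⟩
    · rw [l1 _ _ (hz i).1 (hz' i).1, (hz i).2, (hz' i).2]
      rfl
    · exact locJ_mul hT c K (cop_ne h2 hn) y.1 y'.1 z z' (fun i => cop_ne h2 (hz i).1)
        (fun i => cop_ne h2 (hz' i).1) hloc h'
  have zero : ∀ (K : Type) [Field K], c.Lc K ρ 0 := by
    intro K _
    refine ⟨q, fun _ => 1, hqc, hqρ, fun i => ⟨hcop1, ?_⟩, ?_⟩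
    · rw [hlbl1]
      rfl
    · rw [locJ_iff]
      have e : (fun i : Fin (2 * c.g + 1) => ((c.dz (0 : (Option T → c.V) × (Option T → c.V)).1 (fun _ => 1) i : ℤ) : K)) =
          fun _ => 1 := by
        funext i
        have : c.dz (0 : (Option T → c.V) × (Option T → c.V)).1 (fun _ => 1) i = 1 := by
          unfold Cr.dz Uo
          rw [Nat.cast_one, mul_one]
          exact prod_eq_one fun o _ => if_pos rfl
        rw [this, Int.cast_one]
      rw [e]
      exact LG.one _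
  have tor : ∀ (K : Type) [Field K] [CharZero K] (x : c.V),
      c.Lc K ρ ((fun t => c.TT (Pi.single t 1) x), (fun t => ρ t • x)) := by
    intro K _ _ x
    refine ⟨q, fun i => if x.1 i = 0 then 1 else q, hqc, hqρ, fun i => ?_, ?_⟩
    · show Cop T (if x.1 i = 0 then 1 else q) ∧ lbl T (if x.1 i = 0 then 1 else q) = fun o => ρ o * x.1 i
      rcases z2 (x.1 i) with h | h
      · rw [if_pos h, h]
        refine ⟨hcop1, ?_⟩
        rw [hlbl1]
        funext o
        rw [mul_zero]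
        rfl
      · rw [if_neg (by rw [h]; exact one_ne_zero), h]
        refine ⟨hqc, ?_⟩
        rw [hqρ]
        funext o
        rw [mul_one]
    · exact tor_loc c l8 l7 K q hq.ne_zero x
  refine ⟨add ℝ fun y n z hn hnρ hz h => ((hLOCI T hT h2 c ρ y n z hn hnρ hz).1).1 h, zero ℝ, tor ℝ,
    fun p _ hp => ⟨add ℚ_[p] fun y n z hn hnρ hz h => ((hLOCI T hT h2 c ρ y n z hn hnρ hz).2 p hp).1 h,
      zero ℚ_[p], tor ℚ_[p]⟩⟩

end Pool.Agent.Q121.JQ
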