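import Pool.Agent.Q121.JQ.LSZc

/-!
# JQ-LSZ: the orders of the local images of an elliptic curve with full 2-torsion
-/

set_option autoImplicit false
set_option linter.unusedVariables false
set_option maxHeartbeats 400000

namespace Pool.Agent.Q121.JQ

open Finset Q44.JQ WeierstrassCurve
open Pool.Agent.H901R3.MS (CV Pt Eqn equation_iff eqn_of add_ne add_dbl add_opp neg_some')
open Pool.Agent.TH344.SH (IsR)
open Pool.Agent.Y673.Loc
open Pool.Agent.Y673.Loc.ZV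
open Pool.Agent.Y673.FM (Kn tt Kn_zero Kn_some tt_zero tt_val ker_val int_y gn gp g00)

/-! ### the filtration -/

section fil

variable {L : Type} [Field L] [DecidableEq L] {w : ZV L} {a b : L}

/-- the filtration of the kernel of the reduction -/
def Us (w : ZV L) (ha : w.G 0 a) (hb : w.G 0 b) (k : ℤ) (hk : 1 ≤ k) : AddSubgroup (Pt a b) where
  carrier := {P | Kn w P ∧ w.G k (tt P)}
  zero_mem' := ⟨Kn_zero, by rw [tt_zero]; exact G_zero⟩
  add_mem' := by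
    rintro P Q ⟨hP, hP'⟩ ⟨hQ, hQ'⟩
    obtain ⟨h1, g, hg, e⟩ := Kn.add ha hb hP hQ
    refine ⟨h1, ?_⟩
    rw [e]
    exact (hP'.add hQ').add (((hP'.mul hQ').mul hg).mono (by omega))
  neg_mem' := by
    rintro P ⟨hP, hP'⟩
    obtain ⟨h1, e⟩ := Kn.neg ha hb hP
    exact ⟨h1, by rw [e]; exact hP'.neg⟩

variable (ha : w.G 0 a) (hb : w.G 0 b)

include ha hb

theorem mem_Us {k : ℤ} {hk : 1 ≤ k} {x y : L} {h : (CV a b).toAffine.Nonsingular x y} :
    (Affine.Point.some x y h : Pt a b) ∈ Us w ha hb k hk ↔ ¬ w.G (1 - 2 * k) x := by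
  constructor
  · rintro ⟨h1, h2⟩ h3
    obtain ⟨m, hm, hx, hy⟩ := ker_val ha hb (eqn_of h) (Kn_some.1 h1)
    have e1 : w.E m (x / y) := (hx.div hy).cast (by ring)
    have e2 : k ≤ m := e1.le_of_G h2
    have e3 := hx.le_of_G h3
    omega
  · intro h1
    have h2 : ¬ w.G 0 x := fun h3 => h1 (h3.mono (by omega))
    obtain ⟨m, hm, hx, hy⟩ := ker_val ha hb (eqn_of h) h2
    refine ⟨Kn_some.2 h2, ?_⟩
    have e1 : w.E m (x / y) := (hx.div hy).cast (by ring)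
    obtain ⟨m', hm', hx'⟩ := (not_G_iff _ _).1 h1
    have e2 := hx.eq hx'
    exact e1.mono (by omega)

theorem Us_dbl {k : ℤ} (hk : 1 ≤ k) (hk' : 1 ≤ k + 1) (h2 : w.G 1 (2 : L)) {P : Pt a b}
    (hP : P ∈ Us w ha hb k hk) : P + P ∈ Us w ha hb (k + 1) hk' := by
  obtain ⟨h, h'⟩ := hP
  obtain ⟨h1, g, hg, e⟩ := Kn.add ha hb h h
  refine ⟨h1, ?_⟩
  rw [e]
  have e1 : tt P + tt P = 2 * tt P := by ring
  rw [e1]
  exact ((h2.mul h').mono (by omega)).add (((h'.mul h').mul hg).mono (by omega))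

/-- points of the kernel of the reduction with near parameters -/
theorem close_ker {N : ℤ} (hN : 1 ≤ N) {P Q : Pt a b} (hP : Kn w P) (hQ : Kn w Q)
    (h : w.G N (tt P - tt Q)) : P - Q ∈ Us w ha hb N hN := by
  have hnQ := Kn.neg ha hb hQ
  have hR : Kn w (P - Q) := by
    rw [sub_eq_add_neg]
    exact (Kn.add ha hb hP hnQ.1).1
  obtain ⟨-, g, hg, e⟩ := Kn.add ha hb hQ hR
  rw [add_sub_cancel] at e
  refine ⟨hR, ?_⟩
  have htQ : w.G 0 (tt Q) := by
    by_cases h0 : Q = 0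
    · rw [h0]; exact G_zero
    · obtain ⟨h, hh, h1, -⟩ := tt_val ha hb hQ h0
      exact h1.mono hh.le
  have hu : w.E 0 (1 + tt Q * g) := E_one.addG (htQ.mul hg) (by norm_num)
  have e1 : tt (P - Q) * (1 + tt Q * g) = tt P - tt Q := by rw [e]; ring
  rw [← e1] at h
  have := G_of_mul h hu
  rwa [sub_zero] at this

omit [DecidableEq L] in
theorem disc_mem {D : ℤ} (hD : 0 ≤ D) {x : L} (hx : w.G 0 x)
    (h1 : w.G (D + 1) (3 * x ^ 2 + a)) (h2 : w.G (D + 1) (4 * (x ^ 3 + a * x + b))) :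
    w.G (D + 1) (4 * (4 * a ^ 3 + 27 * b ^ 2)) := by
  have e : 4 * (4 * a ^ 3 + 27 * b ^ 2) = 4 * (3 * x ^ 2 + 4 * a) * (3 * x ^ 2 + a) *
      (3 * x ^ 2 + a) + -(8 * x * (3 * x ^ 2 + 4 * a) + 3 * x ^ 3 - 5 * a * x - 27 * b) *
      (4 * (x ^ 3 + a * x + b)) := by ring
  have n3 : w.G 0 (3 : L) := by exact_mod_cast gn (w := w) 3
  have n4 : w.G 0 (4 : L) := by exact_mod_cast gn (w := w) 4
  have n5 : w.G 0 (5 : L) := by exact_mod_cast gn (w := w) 5
  have n8 : w.G 0 (8 : L) := by exact_mod_cast gn (w := w) 8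
  have n27 : w.G 0 (27 : L) := by exact_mod_cast gn (w := w) 27
  have m1 : w.G 0 (3 * x ^ 2 + 4 * a) := (g00 n3 (gp hx 2)).add (g00 n4 ha)
  have m2 : w.G 0 (3 * x ^ 2 + a) := (g00 n3 (gp hx 2)).add ha
  have m3 : w.G 0 (8 * x * (3 * x ^ 2 + 4 * a) + 3 * x ^ 3 - 5 * a * x - 27 * b) :=
    ((((g00 (g00 n8 hx) m1).add (g00 n3 (gp hx 3))).sub (g00 (g00 n5 ha) hx)).sub (g00 n27 hb))
  rw [e]
  refine (((g00 (g00 n4 m1) m2).mul h1).mono (by omega)).add ((m3.neg.mul h2).mono (by omega))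

/-- integral points which are near -/
theorem close_int {D N : ℤ} (hD : 0 ≤ D) (hN : 1 ≤ N)
    (hΔ : ¬ w.G (D + 1) (4 * (4 * a ^ 3 + 27 * b ^ 2))) {x₁ y₁ x₂ y₂ : L}
    (h₁ : (CV a b).toAffine.Nonsingular x₁ y₁) (h₂ : (CV a b).toAffine.Nonsingular x₂ y₂)
    (hx₁ : w.G 0 x₁) (hx₂ : w.G 0 x₂) (hx : w.G (D + N) (x₁ - x₂)) (hy : w.G (D + N) (y₁ - y₂)) :
    (Affine.Point.some x₁ y₁ h₁ - Affine.Point.some x₂ y₂ h₂ : Pt a b) ∈ Us w ha hb N hN := by
  have E1 := eqn_of h₁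
  have E2 := eqn_of h₂
  unfold Eqn at E1 E2
  have h₂' : (CV a b).toAffine.Nonsingular x₂ (-y₂) := by
    have := (Affine.nonsingular_neg x₂ y₂).2 h₂
    simpa [Affine.negY, CV] using this
  have n2 : w.G 0 (2 : L) := by exact_mod_cast gn (w := w) 2
  rw [sub_eq_add_neg, neg_some' h₂ h₂']
  have fin : ∀ l : L, ¬ w.G (1 - N) l → ¬ w.G (1 - 2 * N) (l ^ 2 - x₁ - x₂) := by
    intro l hl
    obtain ⟨m, hm, hE⟩ := (not_G_iff _ _).1 hl
    rw [not_G_iff]
    refine ⟨2 * m, by omega, ?_⟩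
    exact (hE.sq.subG hx₁ (by omega)).subG hx₂ (by omega)
  by_cases hxx : x₁ = x₂
  · by_cases hyy : y₁ = -(-y₂)
    · rw [add_opp h₁ h₂' hxx hyy]
      exact (Us w ha hb N hN).zero_mem
    · have hyy' : y₁ = -y₂ := by
        rw [hxx] at E1
        have h3 : (y₁ - y₂) * (y₁ + y₂) = 0 := by linear_combination E1 - E2
        rcases mul_eq_zero.1 h3 with h4 | h4
        · exact absurd (by rw [neg_neg]; exact sub_eq_zero.1 h4) hyy
        · exact eq_neg_of_add_eq_zero_left h4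
      subst hxx
      have h2y : (2 * y₁) ≠ 0 := by
        intro h0
        apply hyy
        linear_combination h0 - hyy'
      obtain ⟨l, hl⟩ : ∃ l, l = (3 * x₁ ^ 2 + a) / (2 * y₁) := ⟨_, rfl⟩
      obtain ⟨h₃, e3⟩ := add_dbl h₁ h₂' rfl hyy l (l ^ 2 - x₁ - x₁)
        (-(l * ((l ^ 2 - x₁ - x₁) - x₁) + y₁)) hl rfl rfl
      rw [e3, mem_Us]
      apply fin
      intro hG
      apply hΔ
      have e1 : l * (2 * y₁) = 3 * x₁ ^ 2 + a := by rw [hl, div_mul_cancel₀ _ h2y]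
      have e2 : 2 * y₁ = y₁ - y₂ := by linear_combination hyy'
      have g1 : w.G (D + N) (2 * y₁) := by rw [e2]; exact hy
      refine disc_mem ha hb hD hx₁ ?_ ?_
      · rw [← e1]
        exact (hG.mul g1).mono (by omega)
      · have e4 : 4 * (x₁ ^ 3 + a * x₁ + b) = (2 * y₁) * (2 * y₁) := by
          linear_combination -4 * E1
        rw [e4]
        exact (g1.mul g1).mono (by omega)
  · obtain ⟨l, hl⟩ : ∃ l, l = (y₁ - (-y₂)) / (x₁ - x₂) := ⟨_, rfl⟩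
    have hsub : x₁ - x₂ ≠ 0 := sub_ne_zero.2 hxx
    obtain ⟨h₃, e3⟩ := add_ne h₁ h₂' hxx l (l ^ 2 - x₁ - x₂)
      (-(l * ((l ^ 2 - x₁ - x₂) - x₁) + y₁)) hl rfl rfl
    rw [e3, mem_Us]
    apply fin
    intro hG
    apply hΔ
    have e1 : l * (x₁ - x₂) = y₁ + y₂ := by
      rw [hl, div_mul_cancel₀ _ hsub]
      ring
    have e2 : l * (y₁ - y₂) = x₁ ^ 2 + x₁ * x₂ + x₂ ^ 2 + a := by
      apply mul_left_cancel₀ hsub
      have : (x₁ - x₂) * (l * (y₁ - y₂)) = (l * (x₁ - x₂)) * (y₁ - y₂) := by ring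
      rw [this, e1]
      linear_combination E1 - E2
    have g1 : w.G (D + 1) (y₁ + y₂) := by
      rw [← e1]
      exact (hG.mul hx).mono (by omega)
    have g2 : w.G (D + 1) (2 * y₁) := by
      have : 2 * y₁ = (y₁ + y₂) + (y₁ - y₂) := by ring
      rw [this]
      exact g1.add (hy.mono (by omega))
    have g3 : w.G (D + 1) (3 * x₁ ^ 2 + a) := by
      have e5 : 3 * x₁ ^ 2 + a = l * (y₁ - y₂) + (x₁ - x₂) * (2 * x₁ + x₂) := by
        rw [e2]; ring
      rw [e5]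
      exact ((hG.mul hy).mono (by omega)).add
        ((hx.mul ((g00 n2 hx₁).add hx₂)).mono (by omega))
    refine disc_mem ha hb hD hx₁ g3 ?_
    have e4 : 4 * (x₁ ^ 3 + a * x₁ + b) = (2 * y₁) * (2 * y₁) := by
      linear_combination -4 * E1
    rw [e4]
    exact (g2.mul g2).mono (by omega)

end fil

/-! ### the p-adic valuation -/

section padic

variable (p : ℕ) [hp : Fact p.Prime]

/-- the valuation of `ℚ_p` -/
noncomputable def wp : ZV ℚ_[p] where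
  v := Padic.valuation
  mul' := fun x y hx hy => Padic.valuation_mul hx hy
  add' := fun x y hx hy h => Padic.le_valuation_add h

variable {p}

theorem G0_iff {x : ℚ_[p]} : (wp p).G 0 x ↔ ‖x‖ ≤ 1 := by
  rw [Padic.norm_le_one_iff_val_nonneg]
  constructor
  · rintro (h | h)
    · rw [h, Padic.valuation_zero]
    · exact h
  · exact fun h => Or.inr h

theorem Gint (n : ℤ) : (wp p).G 0 (n : ℚ_[p]) := G0_iff.2 (Padic.norm_int_le_one n)

theorem Ep : (wp p).E 1 (p : ℚ_[p]) :=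
  ⟨by exact_mod_cast hp.out.ne_zero, Padic.valuation_p⟩

theorem G_iff (n : ℕ) {x : ℚ_[p]} : (wp p).G n x ↔ ∃ y : ℤ_[p], x = (p : ℚ_[p]) ^ n * y := by
  have hpn : (wp p).E n ((p : ℚ_[p]) ^ n) := (Ep.pow n).cast (by ring)
  constructor
  · intro h
    have h1 : (wp p).G 0 (x / (p : ℚ_[p]) ^ n) := (h.div hpn).mono (by omega)
    refine ⟨⟨x / (p : ℚ_[p]) ^ n, G0_iff.1 h1⟩, ?_⟩
    change x = (p : ℚ_[p]) ^ n * (x / (p : ℚ_[p]) ^ n)
    rw [mul_div_cancel₀ _ hpn.1]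
  · rintro ⟨y, rfl⟩
    have h1 : (wp p).G 0 (y : ℚ_[p]) := G0_iff.2 y.2
    exact (hpn.G.mul h1).mono (by omega)

open Classical in
/-- the residue modulo `p ^ M`, zero for elements which are not integral -/
noncomputable def res (M : ℕ) (x : ℚ_[p]) : ZMod (p ^ M) :=
  if h : ‖x‖ ≤ 1 then PadicInt.toZModPow M (⟨x, h⟩ : ℤ_[p]) else 0

theorem res_eq {M : ℕ} {x y : ℚ_[p]} (hx : (wp p).G 0 x) (hy : (wp p).G 0 y)
    (h : res M x = res M y) : (wp p).G M (x - y) := by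
  have hx' := G0_iff.1 hx
  have hy' := G0_iff.1 hy
  unfold res at h
  rw [dif_pos hx', dif_pos hy', ← sub_eq_zero, ← map_sub, ← RingHom.mem_ker,
    PadicInt.ker_toZModPow, Ideal.mem_span_singleton] at h
  obtain ⟨z, hz⟩ := h
  rw [G_iff]
  refine ⟨z, ?_⟩
  have := congrArg (fun t : ℤ_[p] => (t : ℚ_[p])) hz
  push_cast at this
  exact this

/-- elements near `1` are squares -/
theorem sq_near {z : ℚ_[p]} (hz : (wp p).G 3 z) : IsSquare (1 + z) := by
  have h4 : (wp p).E (padicValNat p 4) (4 : ℚ_[p]) := by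
    refine ⟨by norm_num, ?_⟩
    change Padic.valuation (4 : ℚ_[p]) = _
    have := Padic.valuation_natCast (p := p) 4
    exact_mod_cast this
  have h2 : (padicValNat p 4 : ℤ) ≤ 2 := by
    have h1 : padicValNat p 4 ≤ Nat.log p 4 := padicValNat_le_nat_log 4
    have h3 : Nat.log p 4 ≤ Nat.log 2 4 := Nat.log_anti_left (by norm_num) hp.out.two_le
    have h5 : Nat.log 2 4 = 2 := by decide
    omega
  have h4p : (wp p).E (padicValNat p 4 + 1) ((4 : ℚ_[p]) * p) := h4.mul Ep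
  have h5 : (wp p).G 0 (z / ((4 : ℚ_[p]) * p)) := (hz.div h4p).mono (by omega)
  obtain ⟨q, hq⟩ : ∃ q : ℤ_[p], (q : ℚ_[p]) = z / ((4 : ℚ_[p]) * p) := ⟨⟨_, G0_iff.1 h5⟩, rfl⟩
  obtain ⟨r, hr⟩ := Pool.Agent.W402.FK.hens p q
  refine ⟨r, ?_⟩
  have h6 := congrArg (fun t : ℤ_[p] => (t : ℚ_[p])) hr
  have hc4 : ((4 : ℤ_[p]) : ℚ_[p]) = 4 := rfl
  push_cast at h6
  rw [hc4, hq, mul_div_cancel₀ _ h4p.1] at h6
  exact h6

open Classical

variable {a : Fin 3 → ℤ}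

/-- the subgroups for the given curve -/
noncomputable abbrev UA (p : ℕ) [Fact p.Prime] (a : Fin 3 → ℤ) (k : ℤ) (hk : 1 ≤ k) :
    AddSubgroup (PA ℚ_[p] a) :=
  Us (wp p) (Gint (cA a)) (Gint (cB a)) k hk

theorem disc_ne (ha : Function.Injective a) :
    (4 * (4 * ((cA a : ℤ) : ℚ_[p]) ^ 3 + 27 * ((cB a : ℤ) : ℚ_[p]) ^ 2)) ≠ 0 := by
  have hi := rr_inj ha
  have h01 : rr a 0 - rr a 1 ≠ 0 := sub_ne_zero.2 fun h => absurd (hi h) (by decide)
  have h02 : rr a 0 - rr a 2 ≠ 0 := sub_ne_zero.2 fun h => absurd (hi h) (by decide)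
  have h12 : rr a 1 - rr a 2 ≠ 0 := sub_ne_zero.2 fun h => absurd (hi h) (by decide)
  have e : 4 * cA a ^ 3 + 27 * cB a ^ 2 =
      -(((rr a 0 - rr a 1) * (rr a 0 - rr a 2) * (rr a 1 - rr a 2)) ^ 2) := by
    have hs := rr_sum a
    have h2 : rr a 2 = -(rr a 0 + rr a 1) := by linarith
    unfold cA cB
    rw [h2]
    ring
  have h : 4 * (4 * cA a ^ 3 + 27 * cB a ^ 2) ≠ 0 := by
    rw [e]
    exact mul_ne_zero (by norm_num) (neg_ne_zero.2 (pow_ne_zero 2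
      (mul_ne_zero (mul_ne_zero h01 h02) h12)))
  exact_mod_cast h

theorem UA_index (ha : Function.Injective a) (k : ℤ) (hk : 1 ≤ k) : (UA p a k hk).index ≠ 0 := by
  obtain ⟨D', hD'⟩ : ∃ D' : ℤ, (wp p).E D'
      (4 * (4 * ((cA a : ℤ) : ℚ_[p]) ^ 3 + 27 * ((cB a : ℤ) : ℚ_[p]) ^ 2)) :=
    ⟨_, E_of_ne (disc_ne ha)⟩
  obtain ⟨D, hD, hDD⟩ : ∃ D : ℤ, 0 ≤ D ∧ D' ≤ D := ⟨max D' 0, le_max_right _ _, le_max_left _ _⟩
  have hΔ : ¬ (wp p).G (D + 1)
      (4 * (4 * ((cA a : ℤ) : ℚ_[p]) ^ 3 + 27 * ((cB a : ℤ) : ℚ_[p]) ^ 2)) := by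
    intro h
    have := hD'.le_of_G h
    omega
  obtain ⟨M, hM⟩ : ∃ M : ℕ, (M : ℤ) = D + k := ⟨(D + k).toNat, Int.toNat_of_nonneg (by omega)⟩
  have hpM : NeZero (p ^ M) := ⟨pow_ne_zero _ hp.out.ne_zero⟩
  let xc : PA ℚ_[p] a → ℚ_[p] × ℚ_[p] := fun P => match P with
    | .zero => (0, 0)
    | .some x y _ => (x, y)
  refine index_ne_zero_of_map (F := ZMod (p ^ M) × ZMod (p ^ M) × ZMod (p ^ M) × Bool) _
    (fun P => (res M (tt P), res M (xc P).1, res M (xc P).2, decide (Kn (wp p) P))) ?_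
  intro P Q h
  rw [Prod.mk.injEq, Prod.mk.injEq, Prod.mk.injEq] at h
  obtain ⟨h1, h2, h3, h4⟩ := h
  have h4' : Kn (wp p) P ↔ Kn (wp p) Q := by simpa using h4
  have tt0 : ∀ P : PA ℚ_[p] a, Kn (wp p) P → (wp p).G 0 (tt P) := by
    intro P hP
    by_cases h0 : P = 0
    · rw [h0]; exact G_zero
    · obtain ⟨h, hh, h1, -⟩ := tt_val (Gint _) (Gint _) hP h0
      exact h1.mono hh.le
  by_cases hP : Kn (wp p) P
  · have hQ := h4'.1 hP
    have h5 := res_eq (tt0 P hP) (tt0 Q hQ) h1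
    exact close_ker (Gint _) (Gint _) hk hP hQ (h5.mono (by omega))
  · have hQ : ¬ Kn (wp p) Q := fun h => hP (h4'.2 h)
    rcases P with _ | ⟨x₁, y₁, h₁⟩
    · exact absurd Kn_zero hP
    rcases Q with _ | ⟨x₂, y₂, h₂⟩
    · exact absurd Kn_zero hQ
    rw [Kn_some, not_not] at hP hQ
    have i1 := int_y (Gint _) (Gint _) (eqn_of h₁) hP
    have i2 := int_y (Gint _) (Gint _) (eqn_of h₂) hQ
    refine close_int (Gint _) (Gint _) hD hk hΔ h₁ h₂ hP hQ ?_ ?_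
    · exact (res_eq hP hQ h2).mono (by omega)
    · exact (res_eq i1 i2 h3).mono (by omega)

theorem UA_halve (ha : Function.Injective a) (k : ℤ) (hk : 1 ≤ k) (hk2 : 2 ≤ k)
    (P : PA ℚ_[p] a) (hP : P ∈ UA p a k hk) : ∃ Q : PA ℚ_[p] a, Q + Q = P := by
  rcases P with _ | ⟨x, y, h⟩
  · exact ⟨0, add_zero 0⟩
  have hR := isR (K := ℚ_[p]) ha
  rw [mem_Us] at hP
  obtain ⟨m, hm, hx⟩ := (not_G_iff _ _).1 hP
  have hx0 := hx.1
  have key : ∀ i, ∃ s : ℚ_[p], s ≠ 0 ∧ x - ((rr a i : ℤ) : ℚ_[p]) = x * s ^ 2 := by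
    intro i
    have h1 : (wp p).G 3 (-(((rr a i : ℤ) : ℚ_[p]) / x)) :=
      (((Gint (rr a i)).div hx).mono (by omega)).neg
    obtain ⟨s, hs⟩ := sq_near h1
    have e : x - ((rr a i : ℤ) : ℚ_[p]) = x * s ^ 2 := by
      rw [pow_two, ← hs]
      field_simp
      ring
    refine ⟨s, ?_, e⟩
    rintro rfl
    have h2 : x = ((rr a i : ℤ) : ℚ_[p]) := by
      rw [← sub_eq_zero, e]
      ring
    rw [h2] at hP
    exact hP ((Gint _).mono (by omega))
  obtain ⟨s0, hs0, e0⟩ := key 0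
  obtain ⟨s1, hs1, e1⟩ := key 1
  obtain ⟨s2, hs2, e2⟩ := key 2
  have hy := hR.nonsingular.1 h
  rw [e0, e1, e2] at hy
  have hu : (y / (x * s0 * s1 * s2)) ^ 2 = x := by
    rw [div_pow, hy]
    field_simp
  obtain ⟨u, hu'⟩ : ∃ u, u = y / (x * s0 * s1 * s2) := ⟨_, rfl⟩
  rw [← hu'] at hu
  exact Pool.Agent.TH344.SH.halve hR h (u := u * s0) (v := u * s1) (w := u * s2)
    (by rw [mul_pow, hu, e0]) (by rw [mul_pow, hu, e1]) (by rw [mul_pow, hu, e2])

theorem UA_tors (ha : Function.Injective a) (k : ℤ) (hk : 1 ≤ k)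
    (P : PA ℚ_[p] a) (hP : P ∈ UA p a k hk) (h2 : P + P = 0) : P = 0 := by
  rcases P with _ | ⟨x, y, h⟩
  · rfl
  have hR := isR (K := ℚ_[p]) ha
  have hy := (Pool.Agent.TH344.SH.add_self_eq_zero_iff hR h).1 h2
  rw [mem_Us] at hP
  exfalso
  rcases Pool.Agent.TH344.SH.root_of_tor hR h hy with h3 | h3 | h3 <;>
  · rw [h3] at hP
    exact hP ((Gint _).mono (by omega))

theorem UA_point (ha : Function.Injective a) (k : ℕ) (hk2 : 2 ≤ k) (hk : (1 : ℤ) ≤ k)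
    (hk' : (1 : ℤ) ≤ k + 1) : ∃ P : PA ℚ_[p] a, P ∈ UA p a k hk ∧ P ∉ UA p a (k + 1) hk' := by
  have hR := isR (K := ℚ_[p]) ha
  have hp0 : (p : ℚ_[p]) ≠ 0 := by exact_mod_cast hp.out.ne_zero
  obtain ⟨x, hx⟩ : ∃ x : ℚ_[p], x = 1 / ((p : ℚ_[p]) ^ k) ^ 2 := ⟨_, rfl⟩
  have hxE : (wp p).E (-(2 * k)) x := by
    have h1 : (wp p).E (k * 1) ((p : ℚ_[p]) ^ k) := Ep.pow k
    rw [hx, one_div]
    exact h1.sq.inv.cast (by ring)
  have key : ∀ i, ∃ s : ℚ_[p], x - ((rr a i : ℤ) : ℚ_[p]) = x * s ^ 2 := by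
    intro i
    have h1 : (wp p).G 3 (-(((rr a i : ℤ) : ℚ_[p]) / x)) :=
      (((Gint (rr a i)).div hxE).mono (by omega)).neg
    obtain ⟨s, hs⟩ := sq_near h1
    refine ⟨s, ?_⟩
    have hx0 := hxE.1
    rw [pow_two, ← hs]
    field_simp
    ring
  obtain ⟨s0, e0⟩ := key 0
  obtain ⟨s1, e1⟩ := key 1
  obtain ⟨s2, e2⟩ := key 2
  have hns : (CV ((cA a : ℤ) : ℚ_[p]) ((cB a : ℤ) : ℚ_[p])).toAffine.Nonsingular x
      (x * (1 / (p : ℚ_[p]) ^ k) * (s0 * s1 * s2)) := by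
    rw [hR.nonsingular, e0, e1, e2]
    have : (1 / (p : ℚ_[p]) ^ k) ^ 2 = x := by rw [hx, div_pow, one_pow]
    calc (x * (1 / (p : ℚ_[p]) ^ k) * (s0 * s1 * s2)) ^ 2 =
          x ^ 2 * (1 / (p : ℚ_[p]) ^ k) ^ 2 * (s0 * s1 * s2) ^ 2 := by ring
      _ = _ := by rw [this]; ring
  refine ⟨Affine.Point.some _ _ hns, ?_, ?_⟩
  · rw [mem_Us, not_G_iff]
    exact ⟨_, by omega, hxE⟩
  · rw [mem_Us, not_not]
    exact hxE.mono (by omega)

/-- the points of order two -/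
theorem exists_tors {K : Type} [Field K] [CharZero K] [DecidableEq K] (ha : Function.Injective a) :
    ∃ T : Fin 4 → PA K a, Function.Injective T ∧ ∀ i, T i + T i = 0 := by
  have hR := isR (K := K) ha
  have h0 : (CV ((cA a : ℤ) : K) ((cB a : ℤ) : K)).toAffine.Nonsingular ((rr a 0 : ℤ) : K) 0 :=
    hR.nonsingular.2 (by ring)
  have h1 : (CV ((cA a : ℤ) : K) ((cB a : ℤ) : K)).toAffine.Nonsingular ((rr a 1 : ℤ) : K) 0 :=
    hR.nonsingular.2 (by ring)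
  have h2 : (CV ((cA a : ℤ) : K) ((cB a : ℤ) : K)).toAffine.Nonsingular ((rr a 2 : ℤ) : K) 0 :=
    hR.nonsingular.2 (by ring)
  refine ⟨![0, Affine.Point.some _ _ h0, Affine.Point.some _ _ h1, Affine.Point.some _ _ h2],
    ?_, ?_⟩
  · have n01 := hR.nab
    have n02 := hR.nac
    have n12 := hR.nbc
    have z0 : (0 : PA K a) ≠ Affine.Point.some _ _ h0 := (Affine.Point.some_ne_zero _).symm
    have z1 : (0 : PA K a) ≠ Affine.Point.some _ _ h1 := (Affine.Point.some_ne_zero _).symm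
    have z2 : (0 : PA K a) ≠ Affine.Point.some _ _ h2 := (Affine.Point.some_ne_zero _).symm
    have m01 : (Affine.Point.some _ _ h0 : PA K a) ≠ Affine.Point.some _ _ h1 := fun h =>
      n01 (Affine.Point.some.inj h).1
    have m02 : (Affine.Point.some _ _ h0 : PA K a) ≠ Affine.Point.some _ _ h2 := fun h =>
      n02 (Affine.Point.some.inj h).1
    have m12 : (Affine.Point.some _ _ h1 : PA K a) ≠ Affine.Point.some _ _ h2 := fun h =>
      n12 (Affine.Point.some.inj h).1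
    intro i j hij
    fin_cases i <;> fin_cases j <;> first
      | rfl
      | exact absurd hij z0
      | exact absurd hij z1
      | exact absurd hij z2
      | exact absurd hij m01
      | exact absurd hij m02
      | exact absurd hij m12
      | exact absurd hij.symm z0
      | exact absurd hij.symm z1
      | exact absurd hij.symm z2
      | exact absurd hij.symm m01
      | exact absurd hij.symm m02
      | exact absurd hij.symm m12
  · intro i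
    fin_cases i
    · exact add_zero (0 : PA K a)
    · exact (Pool.Agent.TH344.SH.add_self_eq_zero_iff hR h0).2 rfl
    · exact (Pool.Agent.TH344.SH.add_self_eq_zero_iff hR h1).2 rfl
    · exact (Pool.Agent.TH344.SH.add_self_eq_zero_iff hR h2).2 rfl

theorem exists_S (ha : Function.Injective a) : ∃ S : PA ℚ_[p] a, S + S + (S + S) ≠ 0 := by
  obtain ⟨S, h1, h2⟩ := UA_point (p := p) ha 2 le_rfl (by norm_num) (by norm_num)
  refine ⟨S, fun h => ?_⟩
  have h3 := UA_tors ha _ _ (S + S) ((UA p a _ _).add_mem h1 h1) h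
  have h4 := UA_tors ha _ _ S h1 h3
  rw [h4] at h2
  exact h2 (UA p a _ _).zero_mem

theorem padic_ge_odd (ha : Function.Injective a) [Finite (SC ℚ_[p])] :
    4 ≤ Nat.card (imJ ℚ_[p] a) := by
  obtain ⟨T, hT, hT'⟩ := exists_tors (K := ℚ_[p]) ha
  obtain ⟨S, hS⟩ := exists_S (p := p) ha
  have h1 := index_dbl (UA p a 2 (by norm_num)) (UA p a 2 (by norm_num)) (UA_index ha _ _)
    (UA_halve ha 2 (by norm_num) le_rfl) le_rfl (fun P hP => (UA p a _ _).add_mem hP hP) T hT hT'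
    (UA_tors ha _ _)
  rw [AddSubgroup.relIndex_self, mul_one] at h1
  exact h1.trans (coset_imJ ha S hS)

theorem padic_ge_two (ha : Function.Injective a) [Finite (SC ℚ_[2])] :
    8 ≤ Nat.card (imJ ℚ_[2] a) := by
  obtain ⟨T, hT, hT'⟩ := exists_tors (K := ℚ_[2]) ha
  obtain ⟨S, hS⟩ := exists_S (p := 2) ha
  have hle : UA 2 a (2 + 1) (by norm_num) ≤ UA 2 a 2 (by norm_num) := fun P hP =>
    ⟨hP.1, hP.2.mono (by norm_num)⟩
  have hG2 : (wp 2).G 1 (2 : ℚ_[2]) := by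
    have := (Ep (p := 2)).G
    exact_mod_cast this
  have h1 := index_dbl (UA 2 a (2 + 1) (by norm_num)) (UA 2 a 2 (by norm_num)) (UA_index ha _ _)
    (UA_halve ha (2 + 1) (by norm_num) (by norm_num)) hle
    (fun P hP => Us_dbl (Gint _) (Gint _) (by norm_num) (by norm_num) hG2 hP) T hT hT'
    (UA_tors ha _ _)
  have h2 : 2 ≤ (UA 2 a (2 + 1) (by norm_num)).relIndex (UA 2 a 2 (by norm_num)) := by
    have h3 : (UA 2 a (2 + 1) (by norm_num)).relIndex (UA 2 a 2 (by norm_num)) ≠ 0 := by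
      intro h0
      have := AddSubgroup.relIndex_mul_index hle
      rw [h0, zero_mul] at this
      exact UA_index ha _ _ this.symm
    have h4 : (UA 2 a (2 + 1) (by norm_num)).relIndex (UA 2 a 2 (by norm_num)) ≠ 1 := by
      intro h0
      rw [AddSubgroup.relIndex_eq_one] at h0
      obtain ⟨P, hP, hP'⟩ := UA_point (p := 2) ha 2 le_rfl (by norm_num) (by norm_num)
      exact hP' (h0 hP)
    omega
  have h5 : 8 ≤ (dbl (PA ℚ_[2] a)).range.index := by omega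
  exact h5.trans (coset_imJ ha S hS)

end padic

/-! ### the real numbers -/

theorem real_ge {a : Fin 3 → ℤ} (ha : Function.Injective a) [Finite (SC ℝ)] :
    2 ≤ Nat.card (imJ ℝ a) := by
  have hi := rr_inj ha
  obtain ⟨i, hi'⟩ := Finite.exists_min (rr a)
  have hlt : ∀ j, j ≠ i → rr a i + 1 ≤ rr a j := fun j hj => by
    have h1 := hi' j
    have h2 : rr a i ≠ rr a j := fun h => hj (hi h).symm
    omega
  obtain ⟨x, hx⟩ : ∃ x : ℝ, x = (rr a i : ℝ) + 1 / 2 := ⟨_, rfl⟩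
  have hxi : x - (rr a i : ℝ) = 1 / 2 := by rw [hx]; ring
  have hxj : ∀ j, j ≠ i → x - (rr a j : ℝ) < 0 := fun j hj => by
    have h1 : ((rr a i : ℝ)) + 1 ≤ (rr a j : ℝ) := by exact_mod_cast hlt j hj
    rw [hx]
    linarith
  have hne : ∀ j, x - ((rr a j : ℤ) : ℝ) ≠ 0 := fun j => by
    by_cases hj : j = i
    · rw [hj, hxi]; norm_num
    · exact (hxj j hj).ne
  have hpos : 0 ≤ (x - (rr a 0 : ℤ)) * (x - (rr a 1 : ℤ)) * (x - (rr a 2 : ℤ)) := by
    have hall : ∀ j, x - ((rr a j : ℤ) : ℝ) = 1 / 2 ∧ j = i ∨ x - ((rr a j : ℤ) : ℝ) < 0 ∧ j ≠ i := by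
      intro j
      by_cases hj : j = i
      · left; exact ⟨by rw [hj, hxi], hj⟩
      · right; exact ⟨hxj j hj, hj⟩
    rcases hall 0 with ⟨h0, e0⟩ | ⟨h0, e0⟩ <;> rcases hall 1 with ⟨h1, e1⟩ | ⟨h1, e1⟩ <;>
      rcases hall 2 with ⟨h2, e2⟩ | ⟨h2, e2⟩
    · exact absurd (e0.trans e1.symm) (by decide)
    · exact absurd (e0.trans e1.symm) (by decide)
    · exact absurd (e0.trans e2.symm) (by decide)
    · rw [h0, mul_assoc]
      exact mul_nonneg (by norm_num) (mul_nonneg_of_nonpos_of_nonpos h1.le h2.le)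
    · exact absurd (e1.trans e2.symm) (by decide)
    · rw [h1, mul_comm (x - ((rr a 0 : ℤ) : ℝ)), mul_assoc]
      exact mul_nonneg (by norm_num) (mul_nonneg_of_nonpos_of_nonpos h0.le h2.le)
    · rw [h2]
      exact mul_nonneg (mul_nonneg_of_nonpos_of_nonpos h0.le h1.le) (by norm_num)
    · exfalso
      fin_cases i
      · exact e0 rfl
      · exact e1 rfl
      · exact e2 rfl
  have hm := pt_imJ (a := a) (x := x)
    (y := √((x - (rr a 0 : ℤ)) * (x - (rr a 1 : ℤ)) * (x - (rr a 2 : ℤ)))) (Real.sq_sqrt hpos) hne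
  obtain ⟨j, hj⟩ : ∃ j : Fin 3, j ≠ i := exists_ne i
  have hn1 : (fun i => QuotientGroup.mk (Units.mk0 (x - ((rr a i : ℤ) : ℝ)) (hne i)) :
      Fin 3 → SC ℝ) ≠ 1 := by
    intro h
    have h1 := congrFun h j
    rw [Pi.one_apply, mk_one_iff, Units.val_mk0] at h1
    obtain ⟨r, hr⟩ := h1
    have := hxj j hj
    nlinarith [mul_self_nonneg r]
  have : Nontrivial (imJ ℝ a) := ⟨⟨1, imJ_one a⟩, ⟨_, hm⟩, fun h => hn1 (congrArg Subtype.val h).symm⟩
  have h1 := Finite.one_lt_card_iff_nontrivial.2 this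
  exact h1

/-- JOB JQ-LSZ -/
theorem t_LSZ : S_LSZ := by
  refine ⟨fun p hp a ha => ?_, fun a ha => ?_⟩
  · by_cases hp2 : p = 2
    · subst hp2
      have := SC_two.1
      refine le_antisymm (imJ_le (Pool.Agent.Y676.HS.bl_padic 2) nd_two a ha) ?_
      exact SC_two.2.trans (padic_ge_two ha)
    · have := (SC_odd (p := p) hp2).1
      refine le_antisymm (imJ_le (Pool.Agent.Y676.HS.bl_padic p) (nd_odd hp2) a ha) ?_
      exact (SC_odd hp2).2.trans (padic_ge_odd ha)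
  · have := SC_real.1
    refine le_antisymm (imJ_le Pool.Agent.Y676.HS.bl_real nd_real a ha) ?_
    exact SC_real.2.trans (real_ge ha)

end Pool.Agent.Q121.JQ
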