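import Pool.Agent.Q44.JQ.StmG

/-!
# JQ-LSZ, first part: the local image is isotropic, so it has at most `#SC K` elements
-/

set_option autoImplicit false
set_option linter.unusedVariables false
set_option maxHeartbeats 400000

namespace Pool.Agent.Q121.JQ

open Finset Polynomial Q44.JQ
open Pool.Agent.Y723.PT (LG isot)
open Pool.Agent.Y676.HS (hs BL hs_comm hs_mul hs_mul' hs_sq hs_cls hs_cls')
open Pool.Agent.W313.BMX (Splits)
open scoped Classical

/-- the sum of a nontrivial character -/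
theorem sum_char {G : Type} [Group G] [Fintype G] (f : G → ℤ) (hf : ∀ x y, f (x * y) = f x * f y)
    {x₀ : G} (h : f x₀ ≠ 1) : ∑ x, f x = 0 := by
  have e1 : ∑ x, f (x₀ * x) = ∑ x, f x :=
    Fintype.sum_equiv (Equiv.mulLeft x₀) _ _ fun _ => rfl
  have e2 : ∑ x, f (x₀ * x) = f x₀ * ∑ x, f x := by
    rw [mul_sum]
    exact sum_congr rfl fun x _ => hf _ _
  rw [e2] at e1
  have e3 : (f x₀ - 1) * ∑ x, f x = 0 := by linear_combination e1
  rcases mul_eq_zero.1 e3 with h1 | h1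
  · exact absurd (sub_eq_zero.1 h1) h
  · exact h1

/-- isotropic subgroups are small -/
theorem iso_card {Q : Type} [CommGroup Q] [Finite Q] (H : Q → Q → ℤ)
    (h1 : ∀ a b, H a b * H a b = 1) (hm : ∀ a b c, H (a * b) c = H a c * H b c)
    (hc : ∀ a b, H a b = H b a) (hn : ∀ a, a ≠ 1 → ∃ b, H a b ≠ 1) (L : Subgroup (Q × Q))
    (hL : ∀ x ∈ L, ∀ y ∈ L, H x.1 y.2 * H x.2 y.1 = 1) : Nat.card L ≤ Nat.card Q := by
  have := Fintype.ofFinite Q
  have : Fintype L := Fintype.ofFinite L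
  have hm' : ∀ a b c, H c (a * b) = H c a * H c b := fun a b c => by
    rw [hc, hm, hc a, hc b]
  have hone : ∀ c, H 1 c = 1 := fun c => by
    have e := hm 1 1 c
    rw [mul_one] at e
    rw [e, h1]
  have hone' : ∀ c, H c 1 = 1 := fun c => by rw [hc, hone]
  set P : Q × Q → Q × Q → ℤ := fun x y => H x.1 y.2 * H x.2 y.1 with hP
  have Pm : ∀ x x' y, P (x * x') y = P x y * P x' y := fun x x' y => by
    simp only [hP, Prod.fst_mul, Prod.snd_mul, hm]
    ring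
  have Pm' : ∀ x y y', P x (y * y') = P x y * P x y' := fun x y y' => by
    simp only [hP, Prod.fst_mul, Prod.snd_mul, hm']
    ring
  have Psq : ∀ x y, P x y * P x y = 1 := fun x y => by
    have e1 := h1 x.1 y.2
    have e2 := h1 x.2 y.1
    simp only [hP]
    linear_combination e1 + H x.1 y.2 * H x.1 y.2 * (e2)
  have key1 : ∀ x, x ≠ 1 → ∑ y, P x y = 0 := by
    intro x hx
    have : ∃ y₀, P x y₀ ≠ 1 := by
      by_cases hx1 : x.1 = 1
      · have hx2 : x.2 ≠ 1 := fun h => hx (Prod.ext hx1 h)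
        obtain ⟨b, hb⟩ := hn x.2 hx2
        refine ⟨(b, 1), ?_⟩
        simp only [hP, hone', one_mul]
        exact hb
      · obtain ⟨b, hb⟩ := hn x.1 hx1
        refine ⟨(1, b), ?_⟩
        simp only [hP, hone', mul_one]
        exact hb
    obtain ⟨y₀, hy₀⟩ := this
    exact sum_char (P x) (Pm' x) hy₀
  have e1 : ∑ x : L, ∑ y, P x.1 y = Fintype.card (Q × Q) := by
    rw [Finset.sum_eq_single (1 : L)]
    · have : ∀ y, P ((1 : L) : Q × Q) y = 1 := fun y => by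
        simp only [hP, Subgroup.coe_one, Prod.fst_one, Prod.snd_one, hone, mul_one]
      rw [sum_congr rfl fun y _ => this y]
      simp
    · intro x _ hx
      exact key1 x.1 fun h => hx (Subtype.ext h)
    · intro h
      exact absurd (mem_univ _) h
  rw [sum_comm] at e1
  have e2 : ∀ y, 0 ≤ ∑ x : L, P x.1 y := by
    intro y
    by_cases h : ∃ x₀ : L, P x₀.1 y ≠ 1
    · obtain ⟨x₀, hx₀⟩ := h
      rw [sum_char (fun x : L => P x.1 y) (fun a b => Pm _ _ _) hx₀]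
    · push Not at h
      rw [sum_congr rfl fun x _ => h x]
      simp
  have e3 : ∑ y ∈ univ.filter (fun y => y ∈ L), ∑ x : L, P x.1 y ≤ ∑ y, ∑ x : L, P x.1 y :=
    sum_le_sum_of_subset_of_nonneg (filter_subset _ _) fun y _ _ => e2 y
  have e4 : ∑ y ∈ univ.filter (fun y => y ∈ L), ∑ x : L, P x.1 y =
      (Fintype.card L : ℤ) * Fintype.card L := by
    have : ∀ y ∈ univ.filter (fun y => y ∈ L), ∑ x : L, P x.1 y = Fintype.card L := by
      intro y hy
      rw [sum_congr rfl fun x _ => hL x.1 x.2 y (mem_filter.1 hy).2]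
      simp
    rw [sum_congr rfl this, sum_const, nsmul_eq_mul]
    congr 1
    rw [← Fintype.card_subtype]
  rw [e4, e1, Fintype.card_prod] at e3
  have e5 : Fintype.card L * Fintype.card L ≤ Fintype.card Q * Fintype.card Q := by exact_mod_cast e3
  rw [Nat.card_eq_fintype_card, Nat.card_eq_fintype_card]
  exact Nat.mul_self_le_mul_self_iff.1 e5

section

variable {K : Type} [Field K] {n : ℕ}

theorem mk_eq (u v : Kˣ) : (QuotientGroup.mk u : SC K) = QuotientGroup.mk v ↔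
    IsSquare ((u : K) * v) := by
  rw [QuotientGroup.eq]
  constructor
  · rintro ⟨t, ht⟩
    refine ⟨u * t, ?_⟩
    have h1 : v = u * t ^ 2 := by
      have : t ^ 2 = u⁻¹ * v := ht
      rw [this]
      group
    rw [h1]
    push_cast
    ring
  · rintro ⟨t, ht⟩
    have ht0 : t ≠ 0 := by
      rintro rfl
      rw [mul_zero] at ht
      exact mul_ne_zero u.ne_zero v.ne_zero ht
    refine ⟨Units.mk0 t ht0 / u, ?_⟩
    apply Units.ext
    change ((Units.mk0 t ht0 / u : Kˣ) ^ 2 : Kˣ) = ((u⁻¹ * v : Kˣ) : K)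
    push_cast
    rw [Units.val_mk0, div_pow, pow_two t, ← ht]
    have hu := u.ne_zero
    field_simp

theorem mk_one_iff (u : Kˣ) : (QuotientGroup.mk u : SC K) = 1 ↔ IsSquare (u : K) := by
  rw [← QuotientGroup.mk_one, mk_eq, Units.val_one, mul_one]

theorem SC_sq (x : SC K) : x * x = 1 := by
  obtain ⟨u, rfl⟩ := QuotientGroup.mk_surjective x
  rw [← QuotientGroup.mk_mul, mk_one_iff]
  exact ⟨u, by rw [Units.val_mul]⟩

/-- the Hilbert symbol on the square classes -/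
noncomputable def HQ (a b : SC K) : ℤ := hs ((a.out : Kˣ) : K) ((b.out : Kˣ) : K)

theorem HQ_mk (u v : Kˣ) : HQ (QuotientGroup.mk u : SC K) (QuotientGroup.mk v) =
    hs (u : K) (v : K) := by
  unfold HQ
  have h1 : IsSquare ((((QuotientGroup.mk u : SC K).out : Kˣ) : K) * u) :=
    (mk_eq _ _).1 (QuotientGroup.out_eq' _)
  have h2 : IsSquare ((((QuotientGroup.mk v : SC K).out : Kˣ) : K) * v) :=
    (mk_eq _ _).1 (QuotientGroup.out_eq' _)
  rw [hs_cls u.ne_zero (Units.ne_zero _) h1, hs_cls' v.ne_zero (Units.ne_zero _) h2]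

theorem mem_imJ {a : Fin n → ℤ} {x : Fin n → SC K} : x ∈ imJ K a ↔
    ∃ d : Fin n → Kˣ, (∀ i, x i = QuotientGroup.mk (d i)) ∧
      LG (fun i => ((a i : ℤ) : K)) (fun i => (d i : K)) := by
  constructor
  · rintro ⟨u, v, hu, huv, h⟩
    choose w hw hx using h
    refine ⟨w, hx, u, v, hu, huv, fun i => ⟨?_, ?_⟩⟩
    · intro h0
      have := hw i
      rw [h0, mul_zero] at this
      exact (w i).ne_zero this
    · exact ⟨w i, by rw [← hw i]⟩
  · rintro ⟨d, hx, u, v, hu, huv, h⟩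
    refine ⟨u, v, hu, huv, fun i => ?_⟩
    have h0 : (-1 : K) ^ u.natDegree * u.eval ((a i : ℤ) : K) ≠ 0 :=
      mul_ne_zero (pow_ne_zero _ (neg_ne_zero.2 one_ne_zero)) (h i).1
    refine ⟨Units.mk0 _ h0, rfl, ?_⟩
    rw [hx i, mk_eq, Units.val_mk0, mul_comm]
    exact (h i).2

theorem imJ_one (a : Fin n → ℤ) : (1 : Fin n → SC K) ∈ imJ K a :=
  mem_imJ.2 ⟨fun _ => 1, fun i => rfl, by
    simp only [Units.val_one]
    exact LG.one _⟩

theorem imJ_mul [CharZero K] (hn : Odd n) {a : Fin n → ℤ} (ha : Function.Injective a)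
    {x y : Fin n → SC K} (hx : x ∈ imJ K a) (hy : y ∈ imJ K a) : x * y ∈ imJ K a := by
  obtain ⟨d, hd, h1⟩ := mem_imJ.1 hx
  obtain ⟨e, he, h2⟩ := mem_imJ.1 hy
  refine mem_imJ.2 ⟨d * e, fun i => ?_, ?_⟩
  · rw [Pi.mul_apply, hd, he, Pi.mul_apply, QuotientGroup.mk_mul]
  · have := LG.mul hn (fun i j h => ha (by exact_mod_cast h)) h1 h2
    simpa only [Pi.mul_apply, Units.val_mul] using this

/-- the third component -/
theorem imJ_three {a : Fin 3 → ℤ} {x : Fin 3 → SC K} (hx : x ∈ imJ K a) : x 2 = x 0 * x 1 := by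
  obtain ⟨d, hd, h1⟩ := mem_imJ.1 hx
  have h2 := h1.prod_sq
  rw [Fin.prod_univ_three] at h2
  rw [hd, hd, hd, ← QuotientGroup.mk_mul, mk_eq, Units.val_mul]
  rwa [mul_comm] at h2

/-- the local image is isotropic -/
theorem imJ_isot [CharZero K] (hB : BL K) {a : Fin 3 → ℤ} (ha : Function.Injective a)
    {x y : Fin 3 → SC K} (hx : x ∈ imJ K a) (hy : y ∈ imJ K a) :
    HQ (x 0) (y 1) * HQ (x 1) (y 0) = 1 := by
  have hx2 := imJ_three hx
  have hy2 := imJ_three hy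
  obtain ⟨d, hd, h1⟩ := mem_imJ.1 hx
  obtain ⟨e, he, h2⟩ := mem_imJ.1 hy
  have h3 := isot hB (by decide) (fun i j h => ha (by exact_mod_cast h))
    (fun i => (d i).ne_zero) (fun i => (e i).ne_zero) h1 h2
  rw [Fin.prod_univ_three] at h3
  have e1 : hs ((d 2 : Kˣ) : K) ((e 2 : Kˣ) : K) =
      hs ((d 0 : Kˣ) * (d 1 : Kˣ) : K) ((e 0 : Kˣ) * (e 1 : Kˣ) : K) := by
    rw [← HQ_mk, ← hd, ← he, hx2, hy2, hd, hd, he, he, ← QuotientGroup.mk_mul,
      ← QuotientGroup.mk_mul, HQ_mk, Units.val_mul, Units.val_mul]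
  rw [hs_mul hB (mul_ne_zero (d 0).ne_zero (d 1).ne_zero) (e 0).ne_zero (e 1).ne_zero,
    hs_mul' hB (e 0).ne_zero (d 0).ne_zero (d 1).ne_zero,
    hs_mul' hB (e 1).ne_zero (d 0).ne_zero (d 1).ne_zero] at e1
  rw [hd, hd, he, he, HQ_mk, HQ_mk]
  have s1 := hs_sq ((d 0 : Kˣ) : K) ((e 0 : Kˣ) : K)
  have s2 := hs_sq ((d 1 : Kˣ) : K) ((e 1 : Kˣ) : K)
  rw [e1] at h3
  linear_combination h3 - hs ((d 0 : Kˣ) : K) ((e 1 : Kˣ) : K) * hs ((d 1 : Kˣ) : K) ((e 0 : Kˣ) : K) *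
    (s1 * (hs ((d 1 : Kˣ) : K) ((e 1 : Kˣ) : K)) ^ 2 + s2)

theorem SC_inv (x : SC K) : x⁻¹ = x := inv_eq_of_mul_eq_one_left (SC_sq x)

/-- the first two components of the local image -/
def imL [CharZero K] (a : Fin 3 → ℤ) (ha : Function.Injective a) : Subgroup (SC K × SC K) where
  carrier := {z | ∃ x ∈ imJ K a, z = (x 0, x 1)}
  mul_mem' := by
    rintro _ _ ⟨x, hx, rfl⟩ ⟨y, hy, rfl⟩
    exact ⟨x * y, imJ_mul (by decide) ha hx hy, rfl⟩
  one_mem' := ⟨1, imJ_one a, rfl⟩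
  inv_mem' := by
    rintro _ ⟨x, hx, rfl⟩
    refine ⟨x, hx, ?_⟩
    rw [Prod.inv_mk, SC_inv, SC_inv]

theorem card_imL [CharZero K] [Finite (SC K)] (a : Fin 3 → ℤ) (ha : Function.Injective a) :
    Nat.card (imJ K a) ≤ Nat.card (imL (K := K) a ha) := by
  refine Nat.card_le_card_of_injective
    (fun x : imJ K a => (⟨(x.1 0, x.1 1), x.1, x.2, rfl⟩ : imL (K := K) a ha)) ?_
  rintro ⟨x, hx⟩ ⟨y, hy⟩ h
  have h2 : (x 0, x 1) = (y 0, y 1) := congrArg Subtype.val h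
  have h3 : x 0 = y 0 := (Prod.mk.inj h2).1
  have h4 : x 1 = y 1 := (Prod.mk.inj h2).2
  apply Subtype.ext
  funext i
  fin_cases i
  · exact h3
  · exact h4
  · change x 2 = y 2
    rw [imJ_three hx, imJ_three hy, h3, h4]

/-- the upper bound -/
theorem imJ_le [CharZero K] (hB : BL K) [Finite (SC K)]
    (hnd : ∀ u : K, u ≠ 0 → ¬ IsSquare u → ∃ v, v ≠ 0 ∧ ¬ Splits u v)
    (a : Fin 3 → ℤ) (ha : Function.Injective a) : Nat.card (imJ K a) ≤ Nat.card (SC K) := by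
  have h1 : ∀ x y : SC K, HQ x y * HQ x y = 1 := fun x y => by
    unfold HQ
    exact hs_sq _ _
  have h2 : ∀ x y z : SC K, HQ (x * y) z = HQ x z * HQ y z := by
    intro x y z
    obtain ⟨x, rfl⟩ := QuotientGroup.mk_surjective x
    obtain ⟨y, rfl⟩ := QuotientGroup.mk_surjective y
    obtain ⟨z, rfl⟩ := QuotientGroup.mk_surjective z
    rw [← QuotientGroup.mk_mul, HQ_mk, HQ_mk, HQ_mk, Units.val_mul,
      hs_mul' hB z.ne_zero x.ne_zero y.ne_zero]
  have h3 : ∀ x y : SC K, HQ x y = HQ y x := fun x y => by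
    unfold HQ
    exact hs_comm _ _
  have h4 : ∀ x : SC K, x ≠ 1 → ∃ y, HQ x y ≠ 1 := by
    intro x hx
    obtain ⟨x, rfl⟩ := QuotientGroup.mk_surjective x
    rw [Ne, mk_one_iff] at hx
    obtain ⟨v, hv, h⟩ := hnd x x.ne_zero hx
    refine ⟨QuotientGroup.mk (Units.mk0 v hv), ?_⟩
    rw [HQ_mk, Units.val_mk0]
    unfold hs
    rw [if_neg h]
    decide
  have h5 : ∀ x ∈ imL (K := K) a ha, ∀ y ∈ imL (K := K) a ha, HQ x.1 y.2 * HQ x.2 y.1 = 1 := by
    rintro _ ⟨x, hx, rfl⟩ _ ⟨y, hy, rfl⟩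
    exact imJ_isot hB ha hx hy
  exact (card_imL a ha).trans (iso_card HQ h1 h2 h3 h4 (imL a ha) h5)

end

end Pool.Agent.Q121.JQ
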