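import Pool.Agent.Q121.JQ.LSZa

/-!
# JQ-LSZ, second part: the square classes of `ℚ_p` and `ℝ`
-/

set_option autoImplicit false
set_option linter.unusedVariables false
set_option maxHeartbeats 400000

namespace Pool.Agent.Q121.JQ

open Finset Polynomial Q44.JQ
open Pool.Agent.Y676.HS (hs BL splits_real_iff exists_int)
open Pool.Agent.W313.BMX (Splits splits_mul_sq splits_comm)
open scoped Classical

/-- few square classes -/
theorem SC_card_le {K F : Type} [Field K] [Fintype F] (Φ : Kˣ → F)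
    (h : ∀ u v : Kˣ, Φ u = Φ v → IsSquare ((u : K) * v)) :
    Finite (SC K) ∧ Nat.card (SC K) ≤ Fintype.card F := by
  have hinj : Function.Injective (fun x : SC K => Φ x.out) := by
    intro x y hxy
    have h1 := h _ _ hxy
    have h2 := (mk_eq _ _).2 h1
    have h3 : (QuotientGroup.mk x.out : SC K) = x := QuotientGroup.out_eq' x
    have h4 : (QuotientGroup.mk y.out : SC K) = y := QuotientGroup.out_eq' y
    rw [← h3, ← h4, h2]
  refine ⟨Finite.of_injective _ hinj, ?_⟩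
  have := Nat.card_le_card_of_injective _ hinj
  rwa [Nat.card_eq_fintype_card (α := F)] at this

/-! ### the real numbers -/

theorem nd_real (u : ℝ) (hu : u ≠ 0) (hs : ¬ IsSquare u) : ∃ v, v ≠ 0 ∧ ¬ Splits u v := by
  refine ⟨-1, by norm_num, ?_⟩
  rw [splits_real_iff hu (by norm_num), not_not]
  refine ⟨?_, by norm_num⟩
  by_contra h
  exact hs ⟨√u, (Real.mul_self_sqrt (not_lt.1 h)).symm⟩

theorem SC_real : Finite (SC ℝ) ∧ Nat.card (SC ℝ) ≤ 2 := by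
  have := SC_card_le (K := ℝ) (F := Bool) (fun u => decide ((0:ℝ) < u)) (by
    intro u v h
    have h' : ((0:ℝ) < u) ↔ ((0:ℝ) < v) := by simpa using h
    refine ⟨√((u:ℝ) * v), (Real.mul_self_sqrt ?_).symm⟩
    rcases lt_or_gt_of_ne u.ne_zero with h1 | h1
    · have h2 : ¬ ((0:ℝ) < v) := fun h3 => absurd (h'.2 h3) (not_lt.2 h1.le)
      exact mul_nonneg_of_nonpos_of_nonpos h1.le (not_lt.1 h2)
    · exact (mul_pos h1 (h'.1 h1)).le)
  rwa [Fintype.card_bool] at this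

/-! ### the prime 2 -/

section two

open Pool.Agent.W864.HBm (reps Rep rep_exists splits_rep tab)

theorem rep_padic (u : ℚ_[2]) (hu : u ≠ 0) : ∃ r ∈ reps, ∃ c : ℚ_[2], c ≠ 0 ∧
    u = (r : ℚ_[2]) * c ^ 2 := by
  obtain ⟨n, c, hn, hc, rfl⟩ := exists_int 2 u hu
  obtain ⟨r, hr, d, hd, h⟩ := rep_exists n hn
  exact ⟨r, hr, d * c, mul_ne_zero hd hc, by rw [h]; ring⟩

theorem chk3 : ∀ r ∈ reps, r ≠ 1 → ∃ s ∈ reps, Pool.Agent.W864.HBm.hs r s = false := by decide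

theorem chk4 : ∀ r ∈ reps, r ≠ 0 := by decide

theorem nd_two (u : ℚ_[2]) (hu : u ≠ 0) (hs : ¬ IsSquare u) : ∃ v, v ≠ 0 ∧ ¬ Splits u v := by
  obtain ⟨r, hr, c, hc, rfl⟩ := rep_padic u hu
  have hr1 : r ≠ 1 := by
    rintro rfl
    exact hs ⟨c, by push_cast; ring⟩
  obtain ⟨s, hs', h⟩ := chk3 r hr hr1
  refine ⟨(s : ℚ_[2]), by exact_mod_cast chk4 s hs', ?_⟩
  rw [splits_mul_sq hc, tab r hr s hs', h]
  decide

theorem SC_two : Finite (SC ℚ_[2]) ∧ Nat.card (SC ℚ_[2]) ≤ 8 := by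
  have key : ∀ u : ℚ_[2]ˣ, ∃ r : {r : ℤ // r ∈ reps}, ∃ c : ℚ_[2], c ≠ 0 ∧
      (u : ℚ_[2]) = (r.1 : ℚ_[2]) * c ^ 2 := fun u => by
    obtain ⟨r, hr, h⟩ := rep_padic u u.ne_zero
    exact ⟨⟨r, hr⟩, h⟩
  choose Φ hΦ using key
  have := SC_card_le (K := ℚ_[2]) (F := {r : ℤ // r ∈ reps}) Φ (by
    intro u v h
    obtain ⟨c, -, h1⟩ := hΦ u
    obtain ⟨d, -, h2⟩ := hΦ v
    rw [h] at h1
    exact ⟨((Φ v).1 : ℚ_[2]) * c * d, by rw [h1, h2]; ring⟩)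
  refine ⟨this.1, this.2.trans ?_⟩
  have e : Fintype.card {r : ℤ // r ∈ reps} = 8 := by decide
  exact e.le

end two

/-! ### odd primes -/

section odd

open Pool.Agent.W215.HB (case_gen leg_cases neg_one_nd)

variable {p : ℕ} [hp : Fact p.Prime]

theorem rep_odd (u : ℚ_[p]) (hu : u ≠ 0) : ∃ (t : ℕ) (m : ℤ) (c : ℚ_[p]), ¬ (p : ℤ) ∣ m ∧ c ≠ 0 ∧
    u = (((p : ℤ) ^ t * m : ℤ) : ℚ_[p]) * c ^ 2 := by
  obtain ⟨n, c, hn, hc, rfl⟩ := exists_int p u hu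
  obtain ⟨t, m, hm, rfl⟩ := Pool.Agent.W215.HB.rep (p := p) hn
  exact ⟨t, m, c, hm, hc, rfl⟩

theorem odd_sq (hp2 : p ≠ 2) {m m' : ℤ} (hm : ¬ (p : ℤ) ∣ m) (hm' : ¬ (p : ℤ) ∣ m')
    (h : legendreSym p m = legendreSym p m') : IsSquare (((m * m' : ℤ)) : ℚ_[p]) := by
  have hmm : ¬ (p : ℤ) ∣ m * m' := fun h => (Int.Prime.dvd_mul' (Fact.out) h).elim hm hm'
  have h1 : legendreSym p (m * m') = 1 := by
    rw [legendreSym.mul, h]
    rcases leg_cases hm' with h2 | h2 <;> rw [h2] <;> norm_num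
  have h2 := Pool.Agent.W335.BMX.isSquare_coe
    (Pool.Agent.W335.BMX.sq_of_residue' hp2 (m * m') hmm h1)
  simpa using h2

theorem exists_nonres (hp2 : p ≠ 2) : ∃ e : ℤ, ¬ (p : ℤ) ∣ e ∧ legendreSym p e = -1 := by
  have hc : ringChar (ZMod p) ≠ 2 := by rwa [ZMod.ringChar_zmod_n]
  obtain ⟨x, hx⟩ := quadraticChar_exists_neg_one hc
  obtain ⟨e, rfl⟩ := ZMod.intCast_surjective x
  refine ⟨e, ?_, hx⟩
  intro h
  have h0 : (e : ZMod p) = 0 := by rwa [ZMod.intCast_zmod_eq_zero_iff_dvd]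
  rw [h0] at hx
  simp at hx

theorem nd_odd (hp2 : p ≠ 2) (u : ℚ_[p]) (hu : u ≠ 0) (hs : ¬ IsSquare u) :
    ∃ v, v ≠ 0 ∧ ¬ Splits u v := by
  obtain ⟨t, m, c, hm, hc, rfl⟩ := rep_odd u hu
  have hp0 : (p : ℤ) ≠ 0 := by exact_mod_cast hp.out.ne_zero
  have h1 : ¬ (p : ℤ) ∣ 1 := fun h => by
    have := hp.out.one_lt
    have := Int.le_of_dvd one_pos h
    omega
  rcases Nat.even_or_odd t with ht | ht
  · have hleg : legendreSym p m = -1 := by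
      rcases leg_cases hm with h | h
      · exfalso
        obtain ⟨r, hr⟩ := odd_sq hp2 hm h1 (by rw [h, legendreSym.at_one])
        obtain ⟨k, rfl⟩ := ht
        refine hs ⟨(p : ℚ_[p]) ^ k * r * c, ?_⟩
        rw [mul_one] at hr
        push_cast
        rw [hr]
        ring
      · exact h
    refine ⟨(((p : ℤ) ^ 1 * 1 : ℤ) : ℚ_[p]), ?_, ?_⟩
    · exact_mod_cast mul_ne_zero (pow_ne_zero 1 hp0) one_ne_zero
    · rw [splits_mul_sq hc, case_gen hp2 hm h1 t 1]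
      unfold Pool.Agent.W215.HB.sg
      rw [hleg, legendreSym.at_one, mul_one, one_pow, mul_one]
      rcases leg_cases (p := p) neg_one_nd with h | h
      · rw [h]; norm_num
      · rw [h, ht.neg_one_pow]; norm_num
  · obtain ⟨e, he, hle⟩ := exists_nonres (p := p) hp2
    have he0 : e ≠ 0 := by rintro rfl; exact he (dvd_zero _)
    refine ⟨(((p : ℤ) ^ 0 * e : ℤ) : ℚ_[p]), ?_, ?_⟩
    · exact_mod_cast mul_ne_zero (pow_ne_zero 0 hp0) he0
    · rw [splits_mul_sq hc, case_gen hp2 hm he t 0]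
      unfold Pool.Agent.W215.HB.sg
      rw [hle, mul_zero, pow_zero, pow_zero, one_mul, mul_one, ht.neg_one_pow]
      norm_num

theorem SC_odd (hp2 : p ≠ 2) : Finite (SC ℚ_[p]) ∧ Nat.card (SC ℚ_[p]) ≤ 4 := by
  have key : ∀ u : ℚ_[p]ˣ, ∃ q : ℕ × ℤ, ∃ c : ℚ_[p], ¬ (p : ℤ) ∣ q.2 ∧
      (u : ℚ_[p]) = (((p : ℤ) ^ q.1 * q.2 : ℤ) : ℚ_[p]) * c ^ 2 := fun u => by
    obtain ⟨t, m, c, hm, hc, h⟩ := rep_odd (u : ℚ_[p]) u.ne_zero
    exact ⟨(t, m), c, hm, h⟩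
  choose Φ hΦ using key
  have := SC_card_le (K := ℚ_[p]) (F := Bool × Bool)
    (fun u => (decide (Even (Φ u).1), decide (legendreSym p (Φ u).2 = 1))) (by
    intro u v h
    obtain ⟨c, hm, h1⟩ := hΦ u
    obtain ⟨d, hm', h2⟩ := hΦ v
    rw [Prod.mk.injEq] at h
    obtain ⟨h3, h4⟩ := h
    have h3' : Even (Φ u).1 ↔ Even (Φ v).1 := by simpa using h3
    have h4' : legendreSym p (Φ u).2 = 1 ↔ legendreSym p (Φ v).2 = 1 := by simpa using h4
    have h5 : legendreSym p (Φ u).2 = legendreSym p (Φ v).2 := by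
      rcases leg_cases hm with h6 | h6 <;> rcases leg_cases hm' with h7 | h7
      · rw [h6, h7]
      · rw [h4'.1 h6] at h7
        norm_num at h7
      · rw [h4'.2 h7] at h6
        norm_num at h6
      · rw [h6, h7]
    obtain ⟨r, hr⟩ := odd_sq hp2 hm hm' h5
    have h6 : Even ((Φ u).1 + (Φ v).1) := by
      rw [Nat.even_add]
      exact h3'
    obtain ⟨k, hk⟩ := h6
    refine ⟨(p : ℚ_[p]) ^ k * r * c * d, ?_⟩
    rw [h1, h2]
    push_cast at hr ⊢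
    have h7 : (p : ℚ_[p]) ^ (Φ u).1 * (p : ℚ_[p]) ^ (Φ v).1 = (p : ℚ_[p]) ^ k * (p : ℚ_[p]) ^ k := by
      rw [← pow_add, hk, pow_add]
    linear_combination (((Φ u).2 : ℚ_[p]) * (Φ v).2 * c ^ 2 * d ^ 2) * h7 +
      ((p : ℚ_[p]) ^ k * (p : ℚ_[p]) ^ k * c ^ 2 * d ^ 2) * hr)
  simpa using this

end odd

end Pool.Agent.Q121.JQ
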