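import Pool.Agent.Q121.JQ.LSZb
import Pool.Agent.Y673.FM.Ker
import Pool.Agent.TH344.SH.Crv

/-!
# JQ-LSZ, third part: the classes modulo doubling embed into the local image
-/

set_option autoImplicit false
set_option linter.unusedVariables false
set_option maxHeartbeats 400000

namespace Pool.Agent.Q121.JQ

open Finset Polynomial Q44.JQ WeierstrassCurve
open Pool.Agent.H901R3.MS (CV Pt Eqn equation_iff eqn_of add_ne add_dbl add_opp neg_some')
open Pool.Agent.TH344.SH (IsR)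
open Pool.Agent.Y723.PT (LG)

/-! ### groups -/

/-- doubling -/
def dbl (G : Type) [AddCommGroup G] : G →+ G := AddMonoidHom.id G + AddMonoidHom.id G

theorem dbl_apply {G : Type} [AddCommGroup G] (P : G) : dbl G P = P + P := rfl

theorem index_dbl {G : Type} [AddCommGroup G] (U U' : AddSubgroup G) (hfin : U.index ≠ 0)
    (h2 : ∀ P ∈ U, ∃ Q, Q + Q = P) (hUU' : U ≤ U') (hU' : ∀ P ∈ U', P + P ∈ U)
    (T : Fin 4 → G) (hTi : Function.Injective T) (hT : ∀ i, T i + T i = 0)
    (hk : ∀ P ∈ U', P + P = 0 → P = 0) :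
    4 * U.relIndex U' ≤ (dbl G).range.index := by
  have hUR : U ≤ (dbl G).range := fun P hP => by
    obtain ⟨Q, hQ⟩ := h2 P hP
    exact ⟨Q, hQ⟩
  set V := U.comap (dbl G) with hV
  have hU'V : U' ≤ V := fun P hP => hU' P hP
  have hUV : U ≤ V := hUU'.trans hU'V
  have e1 : V.index = U.relIndex (dbl G).range := AddSubgroup.index_comap U (dbl G)
  have e2 := AddSubgroup.relIndex_mul_index hUR
  have e3 := AddSubgroup.relIndex_mul_index hUV
  have hVi : V.index ≠ 0 := by
    intro h0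
    rw [h0, mul_zero] at e3
    exact hfin e3.symm
  have e4 : (dbl G).range.index = U.relIndex V := by
    rw [← e1, ← e3, mul_comm] at e2
    exact Nat.eq_of_mul_eq_mul_right (Nat.pos_of_ne_zero hVi) e2
  have e5 := AddSubgroup.relIndex_mul_relIndex U U' V hUU' hU'V
  have hUVr : U.relIndex V ≠ 0 := by
    intro h0
    rw [h0, zero_mul] at e3
    exact hfin e3.symm
  have hU'Vr : U'.relIndex V ≠ 0 := by
    intro h0
    rw [h0, mul_zero] at e5
    exact hUVr e5.symm
  have hker : (dbl G).ker ≤ V := fun P hP => by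
    have : dbl G P = 0 := hP
    change dbl G P ∈ U
    rw [this]
    exact U.zero_mem
  have e6 := AddSubgroup.relIndex_le_of_le_right hker hU'Vr
  have hU'k : U'.relIndex (dbl G).ker ≠ 0 := fun h0 =>
    hU'Vr (AddSubgroup.relIndex_eq_zero_of_le_right hker h0)
  have e7 : U'.relIndex (dbl G).ker = Nat.card (dbl G).ker := by
    rw [← AddSubgroup.inf_relIndex_right]
    have : U' ⊓ (dbl G).ker = ⊥ := by
      rw [eq_bot_iff]
      rintro P ⟨hP1, hP2⟩
      exact hk P hP1 hP2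
    rw [this, AddSubgroup.relIndex_bot_left]
  have e8 : 4 ≤ Nat.card (dbl G).ker := by
    rw [e7] at hU'k
    have : Finite (dbl G).ker := Nat.finite_of_card_ne_zero hU'k
    have := Nat.card_le_card_of_injective (fun i : Fin 4 => (⟨T i, hT i⟩ : (dbl G).ker))
      (fun i j h => hTi (congrArg Subtype.val h))
    rwa [Nat.card_eq_fintype_card, Fintype.card_fin] at this
  rw [e4, ← e5, mul_comm]
  exact Nat.mul_le_mul_left _ (e8.trans (e7 ▸ e6))

theorem index_ne_zero_of_map {G F : Type} [AddCommGroup G] [Finite F] (H : AddSubgroup G)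
    (Φ : G → F) (h : ∀ P Q, Φ P = Φ Q → P - Q ∈ H) : H.index ≠ 0 := by
  have hf : Finite (G ⧸ H) := Finite.of_injective (fun c : G ⧸ H => Φ c.out) (by
    intro c d hcd
    have h1 := h _ _ hcd
    have h2 : (QuotientAddGroup.mk d.out : G ⧸ H) = QuotientAddGroup.mk c.out := by
      rw [QuotientAddGroup.eq, neg_add_eq_sub]
      exact h1
    have h3 : (QuotientAddGroup.mk c.out : G ⧸ H) = c := QuotientAddGroup.out_eq' c
    have h4 : (QuotientAddGroup.mk d.out : G ⧸ H) = d := QuotientAddGroup.out_eq' d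
    rw [← h3, ← h4, h2])
  exact AddSubgroup.index_ne_zero_of_finite

/-! ### the curve -/

/-- the roots, with sum zero -/
def rr (a : Fin 3 → ℤ) (i : Fin 3) : ℤ := 3 * (3 * a i - (a 0 + a 1 + a 2))
/-- coefficients -/
def cA (a : Fin 3 → ℤ) : ℤ := rr a 0 * rr a 1 + rr a 0 * rr a 2 + rr a 1 * rr a 2
def cB (a : Fin 3 → ℤ) : ℤ := -(rr a 0 * rr a 1 * rr a 2)

theorem rr_sum (a : Fin 3 → ℤ) : rr a 0 + rr a 1 + rr a 2 = 0 := by
  unfold rr
  ring

theorem rr_inj {a : Fin 3 → ℤ} (ha : Function.Injective a) : Function.Injective (rr a) := by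
  intro i j h
  apply ha
  unfold rr at h
  omega

section

variable {K : Type} [Field K] [CharZero K] {a : Fin 3 → ℤ}

/-- the points of the curve -/
abbrev PA (K : Type) [Field K] (a : Fin 3 → ℤ) : Type := Pt ((cA a : ℤ) : K) ((cB a : ℤ) : K)

theorem isR (ha : Function.Injective a) : IsR (CV ((cA a : ℤ) : K) ((cB a : ℤ) : K)).toAffine
    ((rr a 0 : ℤ) : K) ((rr a 1 : ℤ) : K) ((rr a 2 : ℤ) : K) := by
  have h := congrArg (fun z : ℤ => (z : K)) (rr_sum a)
  push_cast at h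
  have hi := rr_inj ha
  have ne : ∀ i j : Fin 3, i ≠ j → ((rr a i : ℤ) : K) ≠ ((rr a j : ℤ) : K) := fun i j hij h =>
    hij (hi (by exact_mod_cast h))
  refine ⟨rfl, ?_, rfl, ?_, ?_, two_ne_zero, ne 0 1 (by decide), ne 0 2 (by decide),
    ne 1 2 (by decide)⟩
  · change (0 : K) = _
    rw [h, neg_zero]
  · change ((cA a : ℤ) : K) = _
    unfold cA
    push_cast
    ring
  · change ((cB a : ℤ) : K) = _
    unfold cB
    push_cast
    ring

/-- a point gives an element of the local image -/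
theorem pt_imJ {x y : K} (h : y ^ 2 = (x - (rr a 0 : ℤ)) * (x - (rr a 1 : ℤ)) * (x - (rr a 2 : ℤ)))
    (hx : ∀ i, x - ((rr a i : ℤ) : K) ≠ 0) :
    (fun i => QuotientGroup.mk (Units.mk0 (x - ((rr a i : ℤ) : K)) (hx i)) : Fin 3 → SC K) ∈
      imJ K a := by
  have h9 : (9 : K) ≠ 0 := by norm_num
  set X : K := (x + 3 * ((a 0 : ℤ) + (a 1 : ℤ) + (a 2 : ℤ))) / 9 with hX
  have hXi : ∀ i, x - ((rr a i : ℤ) : K) = 9 * (X - ((a i : ℤ) : K)) := by
    intro i
    unfold rr
    rw [hX]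
    push_cast
    field_simp
    ring
  refine mem_imJ.2 ⟨fun i => Units.mk0 _ (hx i), fun i => rfl, Polynomial.X - C X, C (y / 27),
    monic_X_sub_C _, ?_, fun i => ⟨?_, ?_⟩⟩
  · rw [dvd_iff_isRoot, IsRoot.def, eval_sub, eval_pow, eval_C, eval_prod, Fin.prod_univ_three]
    simp only [eval_sub, eval_X, eval_C]
    rw [hXi, hXi, hXi] at h
    have h27 : (27 : K) ≠ 0 := by norm_num
    rw [div_pow, h]
    field_simp
    ring
  · rw [eval_sub, eval_X, eval_C]
    intro h0
    apply hx i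
    rw [hXi, show X - ((a i : ℤ) : K) = -(((a i : ℤ) : K) - X) by ring, h0, neg_zero, mul_zero]
  · rw [natDegree_X_sub_C, eval_sub, eval_X, eval_C]
    change IsSquare ((-1) ^ 1 * (((a i : ℤ) : K) - X) * (x - ((rr a i : ℤ) : K)))
    rw [hXi]
    exact ⟨3 * (X - ((a i : ℤ) : K)), by ring⟩

omit [CharZero K] in
theorem prod_zero {x : K} {i : Fin 3} (h0 : x - ((rr a i : ℤ) : K) = 0) :
    (x - (rr a 0 : ℤ)) * (x - (rr a 1 : ℤ)) * (x - (rr a 2 : ℤ)) = 0 := by
  fin_cases i
  · change x - ((rr a 0 : ℤ) : K) = 0 at h0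
    rw [h0]; ring
  · change x - ((rr a 1 : ℤ) : K) = 0 at h0
    rw [h0]; ring
  · change x - ((rr a 2 : ℤ) : K) = 0 at h0
    rw [h0]; ring

variable [DecidableEq K]

/-- two points with the same class -/
theorem same_class (ha : Function.Injective a) {x₁ y₁ x₂ y₂ : K}
    (h₁ : (CV ((cA a : ℤ) : K) ((cB a : ℤ) : K)).toAffine.Nonsingular x₁ y₁)
    (h₂ : (CV ((cA a : ℤ) : K) ((cB a : ℤ) : K)).toAffine.Nonsingular x₂ y₂)
    (hy₁ : y₁ ≠ 0) (hy₂ : y₂ ≠ 0)
    (hs : ∀ i, IsSquare ((x₁ - ((rr a i : ℤ) : K)) * (x₂ - ((rr a i : ℤ) : K)))) :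
    ∃ Q : PA K a, Q + Q = Affine.Point.some x₁ y₁ h₁ + Affine.Point.some x₂ y₂ h₂ := by
  have hR := isR (K := K) ha
  have E1 := eqn_of h₁
  have E2 := eqn_of h₂
  by_cases hx : x₁ = x₂
  · by_cases hy : y₁ = -y₂
    · rw [add_opp h₁ h₂ hx hy]
      exact ⟨0, add_zero 0⟩
    · have hyy : y₁ = y₂ := by
        unfold Eqn at E1 E2
        rw [hx] at E1
        have h3 : (y₁ - y₂) * (y₁ + y₂) = 0 := by linear_combination E1 - E2
        rcases mul_eq_zero.1 h3 with h4 | h4
        · exact sub_eq_zero.1 h4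
        · exact absurd (eq_neg_of_add_eq_zero_left h4) hy
      subst hx
      subst hyy
      exact ⟨_, rfl⟩
  · set l : K := (y₁ - y₂) / (x₁ - x₂) with hl
    obtain ⟨h₃, e₃⟩ := add_ne h₁ h₂ hx l (l ^ 2 - x₁ - x₂)
      (-(l * ((l ^ 2 - x₁ - x₂) - x₁) + y₁)) hl rfl rfl
    rw [e₃]
    have hsub : x₁ - x₂ ≠ 0 := sub_ne_zero.2 hx
    have L2 : y₂ = l * x₂ + (y₁ - l * x₁) := by
      have : l * (x₁ - x₂) = y₁ - y₂ := by rw [hl, div_mul_cancel₀ _ hsub]
      linear_combination this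
    obtain ⟨q2, q3, -⟩ := Pool.Agent.W370.KE.chord (c := y₁ - l * x₁) E1 E2 hx hy₁ hy₂ (by ring) L2
      (rfl : l ^ 2 - x₁ - x₂ = l ^ 2 - x₁ - x₂)
    have n1 := hR.nonsingular.1 h₁
    have n2 := hR.nonsingular.1 h₂
    have key : ∀ i, ∃ u : K, u ^ 2 = (l ^ 2 - x₁ - x₂) - ((rr a i : ℤ) : K) := by
      intro i
      have hroot : ((rr a i : ℤ) : K) ^ 3 + ((cA a : ℤ) : K) * ((rr a i : ℤ) : K) +
          ((cB a : ℤ) : K) = 0 := by
        have e1 : rr a i ^ 3 + cA a * rr a i + cB a = 0 := by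
          have hs := rr_sum a
          unfold cA cB
          have e2 : ∀ t : ℤ, t ^ 3 + (rr a 0 * rr a 1 + rr a 0 * rr a 2 + rr a 1 * rr a 2) * t +
              -(rr a 0 * rr a 1 * rr a 2) = (t - rr a 0) * (t - rr a 1) * (t - rr a 2) := by
            intro t
            linear_combination t ^ 2 * hs
          rw [e2]
          fin_cases i <;> simp
        exact_mod_cast congrArg (fun z : ℤ => (z : K)) e1
      obtain ⟨m, hm⟩ := hs i
      have hm0 : m ≠ 0 := by
        rintro rfl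
        rw [mul_zero] at hm
        rcases mul_eq_zero.1 hm with h0 | h0
        · apply hy₁
          have : y₁ ^ 2 = 0 := n1.trans (prod_zero h0)
          exact pow_eq_zero_iff two_ne_zero |>.1 this
        · apply hy₂
          have : y₂ ^ 2 = 0 := n2.trans (prod_zero h0)
          exact pow_eq_zero_iff two_ne_zero |>.1 this
      obtain ⟨t, ht⟩ : ∃ t : K, t = ((rr a i : ℤ) : K) := ⟨_, rfl⟩
      rw [← ht] at hroot hm ⊢
      have e4 : (x₁ - t) * (x₂ - t) * ((l ^ 2 - x₁ - x₂) - t) = (l * t + (y₁ - l * x₁)) ^ 2 := by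
        linear_combination q3 - t * q2 - hroot
      refine ⟨(l * t + (y₁ - l * x₁)) / m, ?_⟩
      rw [div_pow, ← e4, hm]
      field_simp
    obtain ⟨u, hu⟩ := key 0
    obtain ⟨v, hv⟩ := key 1
    obtain ⟨w, hw⟩ := key 2
    exact Pool.Agent.TH344.SH.halve hR h₃ hu hv hw

/-- the classes of the points modulo doubling embed into the local image -/
theorem coset_imJ (ha : Function.Injective a) [Finite (SC K)] (S : PA K a) (hS : S + S + (S + S) ≠ 0) :
    (dbl (PA K a)).range.index ≤ Nat.card (imJ K a) := by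
  have hR := isR (K := K) ha
  have key : ∀ c : PA K a ⧸ (dbl (PA K a)).range, ∃ q : K × K,
      ∃ h : (CV ((cA a : ℤ) : K) ((cB a : ℤ) : K)).toAffine.Nonsingular q.1 q.2, q.2 ≠ 0 ∧
        QuotientAddGroup.mk (Affine.Point.some q.1 q.2 h : PA K a) = c := by
    intro c
    obtain ⟨P, rfl⟩ := QuotientAddGroup.mk_surjective c
    have h1 : ∃ P' : PA K a, P' + P' ≠ 0 ∧
        (QuotientAddGroup.mk P' : PA K a ⧸ (dbl (PA K a)).range) = QuotientAddGroup.mk P := by
      by_cases hP : P + P = 0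
      · refine ⟨P + (S + S), ?_, ?_⟩
        · have : P + (S + S) + (P + (S + S)) = (P + P) + (S + S + (S + S)) := by abel
          rw [this, hP, zero_add]
          exact hS
        · rw [QuotientAddGroup.eq]
          exact ⟨-S, by rw [dbl_apply]; abel⟩
      · exact ⟨P, hP, rfl⟩
    obtain ⟨P', hP', h2⟩ := h1
    rcases P' with _ | ⟨x, y, h⟩
    · exact absurd (add_zero (0 : PA K a)) hP'
    · refine ⟨(x, y), h, ?_, h2⟩
      intro hy
      exact hP' ((Pool.Agent.TH344.SH.add_self_eq_zero_iff hR h).2 hy)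
  choose q hq hq0 hqc using key
  have hne : ∀ c i, (q c).1 - ((rr a i : ℤ) : K) ≠ 0 := by
    intro c i h0
    apply hq0 c
    have n1 := hR.nonsingular.1 (hq c)
    have : (q c).2 ^ 2 = 0 := n1.trans (prod_zero h0)
    exact pow_eq_zero_iff two_ne_zero |>.1 this
  refine Nat.card_le_card_of_injective (fun c : PA K a ⧸ (dbl (PA K a)).range =>
    (⟨_, pt_imJ (hR.nonsingular.1 (hq c)) (hne c)⟩ : imJ K a)) ?_
  intro c d hcd
  have h1 := congrArg Subtype.val hcd
  obtain ⟨Q, hQ⟩ := same_class ha (hq c) (hq d) (hq0 c) (hq0 d) (fun i =>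
    (mk_eq _ _).1 (congrFun h1 i))
  rw [← hqc c, ← hqc d, QuotientAddGroup.eq]
  refine ⟨Q - Affine.Point.some (q c).1 (q c).2 (hq c), ?_⟩
  rw [dbl_apply]
  have : Q - Affine.Point.some (q c).1 (q c).2 (hq c) +
      (Q - Affine.Point.some (q c).1 (q c).2 (hq c)) = (Q + Q) -
        (Affine.Point.some (q c).1 (q c).2 (hq c) + Affine.Point.some (q c).1 (q c).2 (hq c)) := by
    abel
  rw [this, hQ]
  abel

end

end Pool.Agent.Q121.JQ
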